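import Pool.Agent.Lib.MP_df6954_nt.Wronskian

set_option autoImplicit false

open Polynomial

namespace Pool.Agent.Lib.MP_df6954_nt

/-- the determinant -/
noncomputable def Del (N κ : ℕ) : ℤ[X] := (MM N κ).det

/-- auxiliary polynomials -/
noncomputable def QQ (N κ : ℕ) (k : Fin (κ ^ 3)) : ℤ[X] :=
  ∑ r, (MM N κ).adjugate r k * es N (al κ r)

/-- the auxiliary polynomial attached to the exponent `β` -/
noncomputable def Psi (N κ : ℕ) (β : ℕ × ℕ × ℕ) : ℤ[X] :=
  Del N κ * es N β - ∑ k : Fin (κ ^ 3), PowerSeries.coeff (k : ℕ) (us N β) * QQ N κ k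

lemma es_zero (N : ℕ) : es N (0, 0, 0) = 1 := by simp [es]
lemma us_zero (N : ℕ) : us N (0, 0, 0) = 1 := by simp [us, geo_zero]

lemma MM_mul_adj (N κ : ℕ) (k k' : Fin (κ ^ 3)) :
    ∑ r, PowerSeries.coeff (k : ℕ) (us N (al κ r)) * (MM N κ).adjugate r k' =
      if k = k' then Del N κ else 0 := by
  have h := congrFun (congrFun (Matrix.mul_adjugate (MM N κ)) k) k'
  rw [Matrix.mul_apply] at h
  simp only [Matrix.smul_apply, Matrix.one_apply, smul_eq_mul, mul_ite, mul_one, mul_zero] at h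
  exact h

lemma adj_mul_MM (N κ : ℕ) (r r' : Fin (κ ^ 3)) :
    ∑ k : Fin (κ ^ 3), (MM N κ).adjugate r k * PowerSeries.coeff (k : ℕ) (us N (al κ r')) =
      if r = r' then Del N κ else 0 := by
  have h := congrFun (congrFun (Matrix.adjugate_mul (MM N κ)) r) r'
  rw [Matrix.mul_apply] at h
  simp only [Matrix.smul_apply, Matrix.one_apply, smul_eq_mul, mul_ite, mul_one, mul_zero] at h
  exact h

lemma Psi_al (N κ : ℕ) (r : Fin (κ ^ 3)) : Psi N κ (al κ r) = 0 := by
  rw [Psi, sub_eq_zero]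
  simp only [QQ, Finset.mul_sum]
  rw [Finset.sum_comm]
  have h1 : ∀ r' : Fin (κ ^ 3), ∑ k : Fin (κ ^ 3), PowerSeries.coeff (k : ℕ) (us N (al κ r)) *
      ((MM N κ).adjugate r' k * es N (al κ r')) = (if r' = r then Del N κ else 0) * es N (al κ r') := by
    intro r'
    rw [← adj_mul_MM N κ r' r, Finset.sum_mul]
    apply Finset.sum_congr rfl
    intro k _
    ring
  rw [Finset.sum_congr rfl (fun r' _ => h1 r')]
  simp

lemma QQ_zero (N κ : ℕ) (k0 : Fin (κ ^ 3)) (h0 : (k0 : ℕ) = 0) : QQ N κ k0 = Del N κ := by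
  have hκ : 0 < κ := by
    rcases Nat.eq_zero_or_pos κ with h | h
    · exfalso
      have h1 := k0.2
      have h2 : κ ^ 3 = 0 := by rw [h]; rfl
      omega
    · exact h
  obtain ⟨r, hr⟩ := exists_al κ (0, 0, 0) ⟨hκ, hκ, hκ⟩
  have h1 := Psi_al N κ r
  rw [hr, Psi, es_zero, us_zero, sub_eq_zero, mul_one] at h1
  rw [h1]
  rw [Finset.sum_eq_single k0]
  · rw [h0]
    simp
  · intro k _ hk
    have : (k : ℕ) ≠ 0 := by
      intro h
      apply hk
      ext
      rw [h, h0]
    rw [PowerSeries.coeff_one, if_neg this, zero_mul]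
  · intro h
    exact absurd (Finset.mem_univ _) h

/-- membership in the Stepanov ideal -/
lemma Psi_mem {R : Type*} [CommRing R] (N κ : ℕ) (β : ℕ × ℕ × ℕ)
    (hβ : β.1 ≤ κ ∧ β.2.1 ≤ κ ∧ β.2.2 ≤ κ)
    (τ : R) (h1 : τ ^ N = 1) (h2 : (τ + 1) ^ N = 1) (h3 : (τ - 1) ^ N = 1) :
    Psi N κ β ∈ Jid τ (κ ^ 3) := by
  classical
  let γ : Option (Fin (κ ^ 3)) → ℕ × ℕ × ℕ := fun o => o.elim β (al κ)
  let P : Option (Fin (κ ^ 3)) → ℤ[X] := fun o => o.elim (Del N κ)
    (fun r => - ∑ k : Fin (κ ^ 3), PowerSeries.coeff (k : ℕ) (us N β) * (MM N κ).adjugate r k)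
  have key := stepanov (R := R) Finset.univ P γ κ N (κ ^ 3) (by
      intro o _
      rcases o with _ | r
      · exact hβ
      · obtain ⟨a, b, c⟩ := al_lt κ r
        exact ⟨a.le, b.le, c.le⟩)
    (by
      intro k hk
      rw [Fintype.sum_option]
      simp only [γ, P, Option.elim]
      rw [map_add, PowerSeries.coeff_C_mul, map_sum]
      have e1 : ∀ r : Fin (κ ^ 3), PowerSeries.coeff k (PowerSeries.C
          (-∑ k' : Fin (κ ^ 3), PowerSeries.coeff (k' : ℕ) (us N β) * (MM N κ).adjugate r k') *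
            us N (al κ r)) = - ∑ k' : Fin (κ ^ 3), PowerSeries.coeff (k' : ℕ) (us N β) *
              (PowerSeries.coeff k (us N (al κ r)) * (MM N κ).adjugate r k') := by
        intro r
        rw [PowerSeries.coeff_C_mul, neg_mul, Finset.sum_mul]
        refine congrArg Neg.neg (Finset.sum_congr rfl fun k' _ => ?_)
        rw [mul_assoc, mul_comm ((MM N κ).adjugate r k')]
      rw [Finset.sum_congr rfl (fun r _ => e1 r), Finset.sum_neg_distrib, Finset.sum_comm]
      have e2 : ∀ k' : Fin (κ ^ 3), ∑ r : Fin (κ ^ 3), PowerSeries.coeff (k' : ℕ) (us N β) *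
          (PowerSeries.coeff k (us N (al κ r)) * (MM N κ).adjugate r k') =
          PowerSeries.coeff (k' : ℕ) (us N β) * (if (⟨k, hk⟩ : Fin (κ ^ 3)) = k' then Del N κ else 0) := by
        intro k'
        rw [← MM_mul_adj N κ ⟨k, hk⟩ k', Finset.mul_sum]
      rw [Finset.sum_congr rfl (fun k' _ => e2 k')]
      simp only [mul_ite, mul_zero, Finset.sum_ite_eq, Finset.mem_univ, if_true]
      ring)
    τ h1 h2 h3
  have h4 : ∑ i ∈ Finset.univ, P i * es N (γ i) = Psi N κ β := by
    rw [Fintype.sum_option]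
    simp only [γ, P, Option.elim]
    have e3 : ∑ r : Fin (κ ^ 3), (-∑ k : Fin (κ ^ 3), PowerSeries.coeff (k : ℕ) (us N β) *
        (MM N κ).adjugate r k) * es N (al κ r) =
        - ∑ k : Fin (κ ^ 3), PowerSeries.coeff (k : ℕ) (us N β) * QQ N κ k := by
      simp only [QQ, Finset.mul_sum, neg_mul, Finset.sum_mul]
      rw [Finset.sum_neg_distrib, Finset.sum_comm]
      refine congrArg Neg.neg (Finset.sum_congr rfl fun k _ => Finset.sum_congr rfl fun r _ => ?_)
      rw [mul_assoc]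
    rw [e3, Psi, sub_eq_add_neg]
  rwa [h4] at key

/-- The shift relation. -/
lemma shift_relation (N κ : ℕ) (x : PowerSeries ℤ[X]) (f : ℤ[X])
    (sh : ℕ × ℕ × ℕ → ℕ × ℕ × ℕ) (hus : ∀ r, us N (sh (al κ r)) = x * us N (al κ r))
    (hes : ∀ r, es N (sh (al κ r)) = f * es N (al κ r)) (k : Fin (κ ^ 3)) :
    ∑ r, (MM N κ).adjugate r k * Psi N κ (sh (al κ r)) =
      Del N κ * f * QQ N κ k - ∑ k' : Fin (κ ^ 3),
        (if k ≤ k' then PowerSeries.coeff ((k' : ℕ) - k) x * (Del N κ * QQ N κ k') else 0) := by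
  have h1 : ∀ r, (MM N κ).adjugate r k * Psi N κ (sh (al κ r)) =
      Del N κ * f * ((MM N κ).adjugate r k * es N (al κ r)) -
        ∑ k' : Fin (κ ^ 3), (MM N κ).adjugate r k * PowerSeries.coeff (k' : ℕ) (x * us N (al κ r)) *
          QQ N κ k' := by
    intro r
    rw [Psi, hus, hes, mul_sub, Finset.mul_sum]
    have e1 : (MM N κ).adjugate r k * (Del N κ * (f * es N (al κ r))) =
        Del N κ * f * ((MM N κ).adjugate r k * es N (al κ r)) := by ring
    rw [e1]
    refine congrArg (HSub.hSub _) (Finset.sum_congr rfl fun k' _ => ?_)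
    rw [mul_assoc]
  rw [Finset.sum_congr rfl (fun r _ => h1 r), Finset.sum_sub_distrib, ← Finset.mul_sum]
  have hQ : ∑ r, (MM N κ).adjugate r k * es N (al κ r) = QQ N κ k := rfl
  rw [hQ, Finset.sum_comm]
  refine congrArg (HSub.hSub _) (Finset.sum_congr rfl fun k' _ => ?_)
  rw [← Finset.sum_mul]
  have h2 : ∑ r, (MM N κ).adjugate r k * PowerSeries.coeff (k' : ℕ) (x * us N (al κ r)) =
      ∑ p ∈ Finset.HasAntidiagonal.antidiagonal (k' : ℕ), PowerSeries.coeff p.1 x *
        (if p.2 = (k : ℕ) then Del N κ else 0) := by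
    simp only [PowerSeries.coeff_mul, Finset.mul_sum]
    rw [Finset.sum_comm]
    apply Finset.sum_congr rfl
    intro p hp
    rw [Finset.HasAntidiagonal.mem_antidiagonal] at hp
    have hlt : p.2 < κ ^ 3 := by
      have := k'.2
      omega
    have h3 := MM_mul_adj N κ ⟨p.2, hlt⟩ k
    have h4 : (if (⟨p.2, hlt⟩ : Fin (κ ^ 3)) = k then Del N κ else 0) =
        (if p.2 = (k : ℕ) then Del N κ else 0) := by
      by_cases h : p.2 = (k : ℕ)
      · rw [if_pos h, if_pos (Fin.ext h)]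
      · rw [if_neg h, if_neg (fun h' => h (congrArg Fin.val h'))]
    rw [← h4, ← h3, Finset.mul_sum]
    apply Finset.sum_congr rfl
    intro r _
    ring
  rw [h2]
  by_cases hk : k ≤ k'
  · rw [if_pos hk]
    have hk' : (k : ℕ) ≤ (k' : ℕ) := hk
    rw [Finset.sum_eq_single ((k' : ℕ) - k, (k : ℕ))]
    · rw [if_pos rfl]
      ring
    · rintro ⟨p, q⟩ hp hne
      rw [Finset.HasAntidiagonal.mem_antidiagonal] at hp
      simp only at hp ⊢
      rw [if_neg, mul_zero]
      intro h
      apply hne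
      rw [h]
      congr 1
      omega
    · intro h
      exfalso
      apply h
      rw [Finset.HasAntidiagonal.mem_antidiagonal]
      omega
  · rw [if_neg hk]
    have hk' : (k' : ℕ) < (k : ℕ) := by
      rw [not_le] at hk
      exact hk
    rw [Finset.sum_eq_zero, zero_mul]
    rintro ⟨p, q⟩ hp
    rw [Finset.HasAntidiagonal.mem_antidiagonal] at hp
    simp only at hp ⊢
    rw [if_neg, mul_zero]
    omega

/-- casting to rational polynomials -/
noncomputable abbrev hat (p : ℤ[X]) : ℚ[X] := p.map (Int.castRingHom ℚ)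

lemma dvd_step (N κ : ℕ) (g : ℚ[X])
    (hg : ∀ β : ℕ × ℕ × ℕ, β.1 ≤ κ ∧ β.2.1 ≤ κ ∧ β.2.2 ≤ κ → g ∣ hat (Psi N κ β))
    (x : PowerSeries ℤ[X]) (hx : PowerSeries.coeff 0 x = 1) (f : ℤ[X])
    (sh : ℕ × ℕ × ℕ → ℕ × ℕ × ℕ) (hus : ∀ r, us N (sh (al κ r)) = x * us N (al κ r))
    (hes : ∀ r, es N (sh (al κ r)) = f * es N (al κ r))
    (hsh : ∀ r, (sh (al κ r)).1 ≤ κ ∧ (sh (al κ r)).2.1 ≤ κ ∧ (sh (al κ r)).2.2 ≤ κ)
    (k : Fin (κ ^ 3)) (ih : ∀ k' : Fin (κ ^ 3), k < k' → g ∣ hat (Del N κ * QQ N κ k')) :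
    g ∣ hat (f - 1) * hat (Del N κ * QQ N κ k) := by
  have h1 := shift_relation N κ x f sh hus hes k
  have h2 : ∑ k' : Fin (κ ^ 3),
        (if k ≤ k' then PowerSeries.coeff ((k' : ℕ) - k) x * (Del N κ * QQ N κ k') else 0) =
      Del N κ * QQ N κ k + ∑ k' : Fin (κ ^ 3),
        (if k < k' then PowerSeries.coeff ((k' : ℕ) - k) x * (Del N κ * QQ N κ k') else 0) := by
    have h3 : ∀ k' : Fin (κ ^ 3),
        (if k ≤ k' then PowerSeries.coeff ((k' : ℕ) - k) x * (Del N κ * QQ N κ k') else 0) =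
        (if k = k' then Del N κ * QQ N κ k' else 0) +
        (if k < k' then PowerSeries.coeff ((k' : ℕ) - k) x * (Del N κ * QQ N κ k') else 0) := by
      intro k'
      rcases lt_trichotomy k k' with h | h | h
      · rw [if_pos h.le, if_neg h.ne, if_pos h, zero_add]
      · subst h
        rw [if_pos le_rfl, if_pos rfl, if_neg (lt_irrefl _), Nat.sub_self, hx, one_mul, add_zero]
      · rw [if_neg (not_le.mpr h), if_neg h.ne', if_neg (not_lt.mpr h.le), add_zero]
    rw [Finset.sum_congr rfl (fun k' _ => h3 k'), Finset.sum_add_distrib]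
    simp
  rw [h2] at h1
  have h4 : (f - 1) * (Del N κ * QQ N κ k) =
      ∑ r, (MM N κ).adjugate r k * Psi N κ (sh (al κ r)) + ∑ k' : Fin (κ ^ 3),
        (if k < k' then PowerSeries.coeff ((k' : ℕ) - k) x * (Del N κ * QQ N κ k') else 0) := by
    rw [h1]
    ring
  rw [hat, hat, ← Polynomial.map_mul, h4, Polynomial.map_add, Polynomial.map_sum,
    Polynomial.map_sum]
  apply dvd_add
  · apply Finset.dvd_sum
    intro r _
    rw [Polynomial.map_mul]
    exact Dvd.dvd.mul_left (hg _ (hsh r)) _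
  · apply Finset.dvd_sum
    intro k' _
    split_ifs with h
    · rw [Polynomial.map_mul]
      exact Dvd.dvd.mul_left (ih k' h) _
    · rw [Polynomial.map_zero]
      exact dvd_zero _

lemma geo_coeff_zero (w : ℤ[X]) (n : ℕ) : PowerSeries.coeff 0 (geo w n) = 1 := by
  have h := geo_mul_one_sub w n
  have h1 := congrArg PowerSeries.constantCoeff h
  rw [map_mul, map_pow, map_sub, map_one, map_mul, PowerSeries.constantCoeff_X, mul_zero, sub_zero,
    one_pow, mul_one] at h1
  simpa using h1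

/-- Any common divisor of the auxiliary polynomials divides the square of the determinant. -/
theorem dvd_Del_sq (N κ : ℕ) (hκ : 1 ≤ κ) (g : ℚ[X])
    (hg : ∀ β : ℕ × ℕ × ℕ, β.1 ≤ κ ∧ β.2.1 ≤ κ ∧ β.2.2 ≤ κ → g ∣ hat (Psi N κ β))
    (a b c : ℚ[X])
    (habc : a * hat (X ^ N - 1) + b * hat ((X + 1) ^ N - 1) + c * hat ((X - 1) ^ N - 1) = 1) :
    g ∣ hat (Del N κ ^ 2) := by
  have main : ∀ n : ℕ, ∀ k : Fin (κ ^ 3), κ ^ 3 - (k : ℕ) ≤ n → g ∣ hat (Del N κ * QQ N κ k) := by
    intro n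
    induction n with
    | zero =>
      intro k hk
      have := k.2
      omega
    | succ n ihn =>
      intro k hk
      have ih : ∀ k' : Fin (κ ^ 3), k < k' → g ∣ hat (Del N κ * QQ N κ k') := by
        intro k' hk'
        apply ihn k'
        have h1 : (k : ℕ) < (k' : ℕ) := hk'
        have := k'.2
        omega
      have d1 := dvd_step N κ g hg (geo aT N) (geo_coeff_zero _ _) (X ^ N)
        (fun β => (β.1 + 1, β.2.1, β.2.2))
        (fun r => by
          simp only [us]
          rw [Nat.add_mul, one_mul, geo_add]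
          ring)
        (fun r => by
          simp only [es]
          rw [Nat.add_mul, one_mul, pow_add]
          ring)
        (fun r => by
          obtain ⟨h1, h2, h3⟩ := al_lt κ r
          exact ⟨h1, h2.le, h3.le⟩) k ih
      have d2 := dvd_step N κ g hg (geo bT N) (geo_coeff_zero _ _) ((X + 1) ^ N)
        (fun β => (β.1, β.2.1 + 1, β.2.2))
        (fun r => by
          simp only [us]
          rw [Nat.add_mul, one_mul, geo_add]
          ring)
        (fun r => by
          simp only [es]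
          rw [Nat.add_mul, one_mul, pow_add]
          ring)
        (fun r => by
          obtain ⟨h1, h2, h3⟩ := al_lt κ r
          exact ⟨h1.le, h2, h3.le⟩) k ih
      have d3 := dvd_step N κ g hg (geo cT N) (geo_coeff_zero _ _) ((X - 1) ^ N)
        (fun β => (β.1, β.2.1, β.2.2 + 1))
        (fun r => by
          simp only [us]
          rw [Nat.add_mul, one_mul, geo_add]
          ring)
        (fun r => by
          simp only [es]
          rw [Nat.add_mul, one_mul, pow_add]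
          ring)
        (fun r => by
          obtain ⟨h1, h2, h3⟩ := al_lt κ r
          exact ⟨h1.le, h2.le, h3⟩) k ih
      have h5 : hat (Del N κ * QQ N κ k) =
          a * (hat (X ^ N - 1) * hat (Del N κ * QQ N κ k)) +
          b * (hat ((X + 1) ^ N - 1) * hat (Del N κ * QQ N κ k)) +
          c * (hat ((X - 1) ^ N - 1) * hat (Del N κ * QQ N κ k)) := by
        calc hat (Del N κ * QQ N κ k) = (a * hat (X ^ N - 1) + b * hat ((X + 1) ^ N - 1) +
              c * hat ((X - 1) ^ N - 1)) * hat (Del N κ * QQ N κ k) := by rw [habc, one_mul]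
          _ = _ := by ring
      rw [h5]
      exact dvd_add (dvd_add (Dvd.dvd.mul_left d1 _) (Dvd.dvd.mul_left d2 _)) (Dvd.dvd.mul_left d3 _)
  have hpos : 0 < κ ^ 3 := by positivity
  have h6 := main (κ ^ 3) ⟨0, hpos⟩ (by omega)
  rw [QQ_zero N κ ⟨0, hpos⟩ rfl] at h6
  rw [pow_two]
  exact h6

end Pool.Agent.Lib.MP_df6954_nt
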