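import Pool.Agent.Lib.MP_df6954_nt.Count

set_option autoImplicit false

open Filter Topology

namespace Pool.Agent.Lib.MP_df6954_nt

lemma eventually_log_le (A B δ : ℝ) (hδ : 0 < δ) :
    ∀ᶠ N : ℕ in atTop, A + B * Real.log N ≤ δ * N := by
  have hc : 0 < δ / (2 * (|B| + 1)) := by positivity
  have h1 := (Real.isLittleO_log_id_atTop.comp_tendsto
    (tendsto_natCast_atTop_atTop (R := ℝ))).def hc
  have h2 : ∀ᶠ N : ℕ in atTop, A ≤ δ / 2 * N := by
    have h3 : Tendsto (fun N : ℕ => δ / 2 * (N : ℝ)) atTop atTop :=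
      Tendsto.const_mul_atTop (by positivity) tendsto_natCast_atTop_atTop
    exact h3.eventually_ge_atTop A
  filter_upwards [h1, h2] with N hN1 hN2
  simp only [Function.comp_apply, id, Real.norm_eq_abs] at hN1
  have hNn : (0 : ℝ) ≤ N := Nat.cast_nonneg N
  rw [abs_of_nonneg hNn] at hN1
  have h4 : B * Real.log N ≤ |B| * |Real.log N| := by
    rw [← abs_mul]
    exact le_abs_self _
  have h5 : |B| * |Real.log N| ≤ |B| * (δ / (2 * (|B| + 1)) * N) :=
    mul_le_mul_of_nonneg_left hN1 (abs_nonneg _)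
  have h6 : |B| * (δ / (2 * (|B| + 1)) * N) ≤ δ / 2 * N := by
    have h7 : |B| * (δ / (2 * (|B| + 1))) ≤ δ / 2 := by
      have h8 : (0 : ℝ) < |B| + 1 := by positivity
      rw [mul_div_assoc', div_le_div_iff₀ (by positivity) (by norm_num)]
      nlinarith [abs_nonneg B]
    calc |B| * (δ / (2 * (|B| + 1)) * N) = (|B| * (δ / (2 * (|B| + 1)))) * N := by ring
      _ ≤ δ / 2 * N := mul_le_mul_of_nonneg_right h7 hNn
  linarith

lemma real_ineq (k n M l2 D LH LT LN L3 Lr u c0 a : ℝ) (hk : 1 ≤ k) (hn : 1 ≤ n) (hM : 1 ≤ M)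
    (hkm : M = k ^ 3) (hl2 : 0 ≤ l2) (hl2' : l2 ≤ 0.7) (hD0 : 0 ≤ D) (hD : D ≤ 4 * k * n)
    (hLH0 : 0 ≤ LH)
    (hLH : LH ≤ (u + M * (c0 + LN)) + (a + M * M * LN) + k * n * (2 * l2))
    (hLT : LT ≤ a + M * M * LN) (hL3 : L3 ≤ 2 * n * l2) (hLN : 0 ≤ LN) (hu : 0 ≤ u)
    (hc0 : 0 ≤ c0) (ha : 0 ≤ a)
    (hlb : M * Lr ≤ 2 * D * (D * l2 + LH) + 3 * (M * n) * LT + 2 * (M * (2 * M)) * (M * L3) +
      n * (M * M) * LN) :
    Lr ≤ 34 / k * n ^ 2 + n * ((8 * k * (u + M * c0 + a) + 3 * M * a + 8 * M ^ 3) +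
      (8 * k * (M + M * M) + 3 * M * (M * M) + M * M) * LN) := by
  have hkpos : 0 < k := by linarith only [hk]
  have hnpos : 0 < n := by linarith only [hn]
  have hMpos : 0 < M := by linarith only [hM]
  have t1 : 2 * D * (D * l2 + LH) ≤ 2 * (4 * k * n) * ((4 * k * n) * l2 + LH) := by
    apply mul_le_mul
    · linarith only [hD]
    · have := mul_le_mul_of_nonneg_right hD hl2
      linarith only [this]
    · positivity
    · positivity
  have t2 : 2 * (4 * k * n) * ((4 * k * n) * l2 + LH) ≤ 2 * (4 * k * n) * ((4 * k * n) * l2 +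
      ((u + M * (c0 + LN)) + (a + M * M * LN) + k * n * (2 * l2))) := by
    apply mul_le_mul_of_nonneg_left _ (by positivity)
    linarith only [hLH]
  have t3 : 3 * (M * n) * LT ≤ 3 * (M * n) * (a + M * M * LN) :=
    mul_le_mul_of_nonneg_left hLT (by positivity)
  have t4 : 2 * (M * (2 * M)) * (M * L3) ≤ 2 * (M * (2 * M)) * (M * (2 * n * l2)) := by
    apply mul_le_mul_of_nonneg_left _ (by positivity)
    exact mul_le_mul_of_nonneg_left hL3 (by positivity)
  have t5 : 2 * (M * (2 * M)) * (M * (2 * n * l2)) ≤ n * (8 * M ^ 3) := by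
    have h8 : (8 * M ^ 3 * n) * l2 ≤ (8 * M ^ 3 * n) * 1 :=
      mul_le_mul_of_nonneg_left (by linarith only [hl2']) (by positivity)
    calc 2 * (M * (2 * M)) * (M * (2 * n * l2)) = (8 * M ^ 3 * n) * l2 := by ring
      _ ≤ (8 * M ^ 3 * n) * 1 := h8
      _ = n * (8 * M ^ 3) := by ring
  set A := 8 * k * (u + M * c0 + a) + 3 * M * a + 8 * M ^ 3 with hA
  set B := 8 * k * (M + M * M) + 3 * M * (M * M) + M * M with hB
  have key : M * Lr ≤ 48 * l2 * k ^ 2 * n ^ 2 + n * (A + B * LN) := by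
    have e1 : 2 * (4 * k * n) * ((4 * k * n) * l2 +
      ((u + M * (c0 + LN)) + (a + M * M * LN) + k * n * (2 * l2))) =
        48 * l2 * k ^ 2 * n ^ 2 + n * (8 * k * (u + M * c0 + a) +
          8 * k * (M + M * M) * LN) := by ring
    have e2 : n * (A + B * LN) = n * (8 * k * (u + M * c0 + a) +
          8 * k * (M + M * M) * LN) + 3 * (M * n) * (a + M * M * LN) + n * (8 * M ^ 3) +
          n * (M * M) * LN := by
      rw [hA, hB]
      ring
    rw [e2]
    linarith only [hlb, t1, t2, t3, t4, t5, e1]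
  have hA0 : 0 ≤ A + B * LN := by positivity
  have hnn : 0 ≤ n * (A + B * LN) := by positivity
  have h9 : Lr ≤ (48 * l2 * k ^ 2 * n ^ 2 + n * (A + B * LN)) / M := by
    rw [le_div_iff₀ hMpos, mul_comm]
    exact key
  refine h9.trans ?_
  rw [add_div]
  apply add_le_add
  · rw [hkm, div_le_iff₀ (by positivity)]
    have h12 : 34 / k * n ^ 2 * k ^ 3 = 34 * (k ^ 2 * n ^ 2) := by
      field_simp
    rw [h12]
    have h10 : 48 * l2 ≤ 34 := by linarith only [hl2']
    have h11 : 0 ≤ k ^ 2 * n ^ 2 := by positivity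
    calc 48 * l2 * k ^ 2 * n ^ 2 = 48 * l2 * (k ^ 2 * n ^ 2) := by ring
      _ ≤ 34 * (k ^ 2 * n ^ 2) := mul_le_mul_of_nonneg_right h10 h11
  · exact div_le_self hnn hM

set_option maxHeartbeats 1000000 in
theorem asymp (κ : ℕ) (hκ : 1 ≤ κ) : ∃ A B : ℝ, ∀ᶠ N : ℕ in atTop, ∀ r : ℕ, 1 ≤ r →
    r ^ (κ ^ 3) ≤
      (2 ^ DD N κ * HH N κ) ^ (2 * DD N κ) * TT N κ ^ (3 * (κ ^ 3 * N)) *
        ((2 ^ N + 1) ^ (κ ^ 3)) ^ (2 * (κ ^ 3 * (2 * κ ^ 3))) * N ^ (N * (κ ^ 3 * κ ^ 3)) →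
    Real.log r ≤ 34 / κ * (N : ℝ) ^ 2 + N * (A + B * Real.log N) := by
  set m : ℕ := κ ^ 3 with hm
  have hm1 : 1 ≤ m := Nat.one_le_pow _ _ hκ
  have hmR : (1 : ℝ) ≤ m := by exact_mod_cast hm1
  have hκR : (1 : ℝ) ≤ κ := by exact_mod_cast hκ
  have hmc : (κ : ℝ) ^ 3 = m := by
    rw [hm]
    push_cast
    rfl
  -- constants
  let c0 : ℝ := Real.log (12 * κ)
  let aT' : ℝ := Real.log (m.factorial) + m * m * c0
  let A : ℝ := 8 * κ * (Real.log (2 * (m * m)) + m * c0 + aT') + 3 * m * aT' + 8 * m ^ 3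
  let B : ℝ := 8 * κ * (m + m * m) + 3 * m * (m * m) + m * m
  refine ⟨A, B, ?_⟩
  filter_upwards [eventually_gt_atTop (NN κ + m)] with N hN r hr hbound
  have hNm : m ≤ N := by omega
  have hN1 : 1 ≤ N := by omega
  have hNR : (1 : ℝ) ≤ N := by exact_mod_cast hN1
  have hlogN : 0 ≤ Real.log N := Real.log_nonneg hNR
  -- WW
  have hWW1 : 1 ≤ WW N κ := one_le_WW N κ hκ
  have hWWle : (WW N κ : ℝ) ≤ 12 * κ * N := by
    have h1 : WW N κ ≤ 12 * κ * N := by
      rw [WW]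
      have : κ ^ 3 ≤ κ * N := by
        calc κ ^ 3 = m := rfl
          _ ≤ N := hNm
          _ ≤ κ * N := Nat.le_mul_of_pos_left _ hκ
      calc 6 * (κ * N + κ ^ 3) ≤ 6 * (κ * N + κ * N) := by omega
        _ = 12 * κ * N := by ring
    exact_mod_cast h1
  have hlogWW : Real.log (WW N κ) ≤ c0 + Real.log N := by
    have h1 : Real.log (WW N κ) ≤ Real.log (12 * κ * N) :=
      Real.log_le_log (by exact_mod_cast hWW1) hWWle
    rwa [Real.log_mul (by positivity) (by positivity)] at h1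
  have hlogSS : Real.log (SS N κ) ≤ m * (c0 + Real.log N) := by
    rw [SS]
    push_cast
    rw [Real.log_pow]
    push_cast
    rw [hmc]
    exact mul_le_mul_of_nonneg_left hlogWW (by positivity)
  have hlogTT : Real.log (TT N κ) ≤ aT' + m * m * Real.log N := by
    rw [TT]
    push_cast
    have hS : (0 : ℝ) < (SS N κ : ℝ) := by exact_mod_cast one_le_SS N κ hκ
    rw [Real.log_mul (by positivity) (by positivity), Real.log_pow]
    have h1 : ((κ ^ 3 : ℕ) : ℝ) * Real.log (SS N κ) ≤ m * (m * (c0 + Real.log N)) :=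
      mul_le_mul_of_nonneg_left hlogSS (by positivity)
    simp only [aT']
    have h2 : Real.log (((κ ^ 3).factorial : ℕ) : ℝ) = Real.log (m.factorial) := rfl
    rw [h2]
    linarith
  have hlogTT0 : 0 ≤ Real.log (TT N κ) := Real.log_nonneg (by exact_mod_cast one_le_TT N κ hκ)
  -- the factor 1 + m * (S * m)
  have hfac : Real.log ((1 + m * (SS N κ * m) : ℕ) : ℝ) ≤
      Real.log (2 * (m * m)) + m * (c0 + Real.log N) := by
    have hS1 := one_le_SS N κ hκ
    have h1 : 1 + m * (SS N κ * m) ≤ 2 * (m * m) * SS N κ := by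
      have h2 : 1 ≤ m * (SS N κ * m) := Nat.mul_pos hm1 (Nat.mul_pos hS1 hm1)
      calc 1 + m * (SS N κ * m) ≤ m * (SS N κ * m) + m * (SS N κ * m) := by omega
        _ = 2 * (m * m) * SS N κ := by ring
    have h2 : (((1 + m * (SS N κ * m) : ℕ)) : ℝ) ≤ 2 * (m * m) * SS N κ := by exact_mod_cast h1
    have h3 := Real.log_le_log (by positivity) h2
    have hS : (0 : ℝ) < (SS N κ : ℝ) := by exact_mod_cast hS1
    rw [Real.log_mul (by positivity) (by positivity)] at h3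
    linarith
  have hlog2 : Real.log 2 ≤ 0.7 := by
    have := Real.log_two_lt_d9
    linarith
  have hlog2' : 0 ≤ Real.log 2 := Real.log_nonneg (by norm_num)
  -- DD
  have hDD : (DD N κ : ℝ) ≤ 4 * κ * N := by
    have h1 : DD N κ ≤ 4 * κ * N := by
      have h2 : κ ^ 3 * (2 * κ ^ 3) ≤ κ * N := by
        have : κ ^ 3 * (2 * κ ^ 3) ≤ N := by
          rw [NN] at hN
          omega
        exact this.trans (Nat.le_mul_of_pos_left _ hκ)
      rw [DD]
      calc κ ^ 3 * (2 * κ ^ 3) + 3 * κ * N ≤ κ * N + 3 * κ * N := Nat.add_le_add_right h2 _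
        _ = 4 * κ * N := by ring
    exact_mod_cast h1
  have hDD0 : (0 : ℝ) ≤ (DD N κ : ℝ) := Nat.cast_nonneg _
  -- HH
  have hlogHH : Real.log (HH N κ) ≤ (Real.log (2 * (m * m)) + m * (c0 + Real.log N)) +
      (aT' + m * m * Real.log N) + κ * N * (2 * Real.log 2) := by
    have hTT : (0 : ℝ) < (TT N κ : ℝ) := by exact_mod_cast one_le_TT N κ hκ
    have h1 : (HH N κ : ℝ) = ((1 + m * (SS N κ * m) : ℕ) : ℝ) * (TT N κ : ℝ) * 4 ^ (κ * N) := by
      rw [HH]
      push_cast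
      rw [hmc]
    rw [h1, Real.log_mul (by positivity) (by positivity), Real.log_mul (by positivity) (by positivity),
      Real.log_pow]
    have h4 : Real.log 4 = 2 * Real.log 2 := by
      rw [show (4 : ℝ) = 2 ^ 2 by norm_num, Real.log_pow]
      norm_num
    rw [h4]
    push_cast at hfac ⊢
    linarith
  have hHH1 : 1 ≤ HH N κ := by
    rw [HH]
    exact Nat.mul_pos (Nat.mul_pos (by omega) (one_le_TT N κ hκ)) (by positivity)
  have hlogHH0 : 0 ≤ Real.log (HH N κ) := Real.log_nonneg (by exact_mod_cast hHH1)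
  -- take logarithms
  have hb : ((r ^ m : ℕ) : ℝ) ≤ (((2 ^ DD N κ * HH N κ) ^ (2 * DD N κ) * TT N κ ^ (3 * (m * N)) *
        ((2 ^ N + 1) ^ m) ^ (2 * (m * (2 * m))) * N ^ (N * (m * m)) : ℕ) : ℝ) := by
    exact_mod_cast hbound
  have hrR : (0 : ℝ) < r := by exact_mod_cast hr
  have hlb := Real.log_le_log (by positivity) hb
  have hTT : (0 : ℝ) < (TT N κ : ℝ) := by exact_mod_cast one_le_TT N κ hκ
  have hHH : (0 : ℝ) < (HH N κ : ℝ) := by exact_mod_cast hHH1
  have hNpos : (0 : ℝ) < (N : ℝ) := by linarith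
  push_cast at hlb
  rw [Real.log_pow, Real.log_mul (by positivity) (by positivity),
    Real.log_mul (by positivity) (by positivity), Real.log_mul (by positivity) (by positivity),
    Real.log_pow, Real.log_pow, Real.log_pow, Real.log_pow, Real.log_pow,
    Real.log_mul (by positivity) (by positivity), Real.log_pow] at hlb
  push_cast at hlb
  -- the term with 2 ^ N + 1
  have hlog3 : Real.log ((2 : ℝ) ^ N + 1) ≤ 2 * N * Real.log 2 := by
    have h1 : ((2 : ℝ) ^ N + 1) ≤ 2 ^ (2 * N) := by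
      have h2 : (1 : ℝ) ≤ 2 ^ N := one_le_pow₀ (by norm_num)
      have h3 : (2 : ℝ) ≤ 2 ^ N := by
        calc (2 : ℝ) = 2 ^ 1 := by norm_num
          _ ≤ 2 ^ N := pow_le_pow_right₀ (by norm_num) hN1
      have h4 : (2 : ℝ) ^ (2 * N) = 2 ^ N * 2 ^ N := by rw [two_mul, pow_add]
      rw [h4]
      nlinarith
    have h2 := Real.log_le_log (by positivity) h1
    rw [Real.log_pow] at h2
    push_cast at h2
    exact h2
  have hkm : (m : ℝ) = (κ : ℝ) ^ 3 := hmc.symm
  have hc0 : 0 ≤ c0 := Real.log_nonneg (by linarith only [hκR])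
  have hf0 : 0 ≤ Real.log (m.factorial) := Real.log_nonneg (by
    exact_mod_cast Nat.one_le_iff_ne_zero.mpr (Nat.factorial_ne_zero m))
  have ha0 : 0 ≤ aT' := by
    have : 0 ≤ (m : ℝ) * m * c0 := by positivity
    exact add_nonneg hf0 this
  have hl0 : 0 ≤ Real.log (2 * (m * m) : ℝ) := Real.log_nonneg (by nlinarith only [hmR])
  exact real_ineq κ N m (Real.log 2) (DD N κ) (Real.log (HH N κ)) (Real.log (TT N κ)) (Real.log N)
    (Real.log ((2 : ℝ) ^ N + 1)) (Real.log r) (Real.log (2 * (m * m))) c0 aT' hκR hNR hmR hkm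
    hlog2' hlog2 hDD0 hDD hlogHH0 hlogHH hlogTT hlog3 hlogN hl0 hc0 ha0 hlb

end Pool.Agent.Lib.MP_df6954_nt
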