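import Pool.Agent.Lib.MP_df6954_nt.Alg

set_option autoImplicit false

open Polynomial

namespace Pool.Agent.Lib.MP_df6954_nt

/-- the coefficients have degree at most twice the index -/
def DegB (F : PowerSeries ℤ[X]) : Prop := ∀ k, (PowerSeries.coeff k F).natDegree ≤ 2 * k

lemma DegB.mul {F G : PowerSeries ℤ[X]} (hF : DegB F) (hG : DegB G) : DegB (F * G) := by
  intro k
  rw [PowerSeries.coeff_mul]
  apply Polynomial.natDegree_sum_le_of_forall_le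
  intro p hp
  rw [Finset.HasAntidiagonal.mem_antidiagonal] at hp
  refine natDegree_mul_le.trans ?_
  have h1 := hF p.1
  have h2 := hG p.2
  omega

/-- the coefficients up to `m` have L1 norm at most `B ^ k` -/
def LB (m : ℕ) (F : PowerSeries ℤ[X]) (B : ℕ) : Prop := ∀ k ≤ m, l1 (PowerSeries.coeff k F) ≤ B ^ k

lemma LB.mul {m : ℕ} {F G : PowerSeries ℤ[X]} {B C : ℕ} (hF : LB m F B) (hG : LB m G C) :
    LB m (F * G) (B + C) := by
  intro k hk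
  rw [PowerSeries.coeff_mul]
  refine (l1_sum_le _ _).trans ?_
  have h1 : ∀ p ∈ Finset.HasAntidiagonal.antidiagonal k,
      l1 (PowerSeries.coeff p.1 F * PowerSeries.coeff p.2 G) ≤ B ^ p.1 * C ^ p.2 * k.choose p.1 := by
    intro p hp
    rw [Finset.HasAntidiagonal.mem_antidiagonal] at hp
    have h2 : 1 ≤ k.choose p.1 := Nat.choose_pos (by omega)
    calc l1 (PowerSeries.coeff p.1 F * PowerSeries.coeff p.2 G)
        ≤ l1 (PowerSeries.coeff p.1 F) * l1 (PowerSeries.coeff p.2 G) := l1_mul_le _ _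
      _ ≤ B ^ p.1 * C ^ p.2 := Nat.mul_le_mul (hF _ (by omega)) (hG _ (by omega))
      _ = B ^ p.1 * C ^ p.2 * 1 := by rw [mul_one]
      _ ≤ B ^ p.1 * C ^ p.2 * k.choose p.1 := Nat.mul_le_mul_left _ h2
  refine (Finset.sum_le_sum h1).trans ?_
  rw [add_pow, Finset.Nat.sum_antidiagonal_eq_sum_range_succ_mk]
  exact le_of_eq rfl

lemma coeff_geo (w : ℤ[X]) (n k : ℕ) : ∃ c : ℕ, c ≤ (n + k) ^ k ∧
    PowerSeries.coeff k (geo w n) = w ^ k * (c : ℤ[X]) := by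
  rcases n with _ | n
  · refine ⟨if k = 0 then 1 else 0, ?_, ?_⟩
    · split_ifs with h
      · rw [h]; simp
      · exact Nat.zero_le _
    · rw [geo_zero, PowerSeries.coeff_one]
      split_ifs with h
      · rw [h]; simp
      · simp
  · refine ⟨(n + k).choose n, ?_, ?_⟩
    · rw [Nat.choose_symm_add]
      refine (Nat.choose_le_pow _ _).trans ?_
      exact Nat.pow_le_pow_left (by omega) _
    · rw [geo, PowerSeries.coeff_rescale, PowerSeries.invOneSubPow_val_succ_eq_mk_add_choose,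
        PowerSeries.coeff_mk]

lemma geo_DegB (w : ℤ[X]) (hw : w.natDegree ≤ 2) (n : ℕ) : DegB (geo w n) := by
  intro k
  obtain ⟨c, -, hc⟩ := coeff_geo w n k
  rw [hc]
  refine natDegree_mul_le.trans ?_
  rw [natDegree_natCast, add_zero]
  refine natDegree_pow_le.trans ?_
  rw [mul_comm 2 k]
  exact Nat.mul_le_mul_left _ hw

lemma geo_LB (w : ℤ[X]) (hw : l1 w ≤ 2) (n m : ℕ) : LB m (geo w n) (2 * (n + m)) := by
  intro k hk
  obtain ⟨c, hc1, hc⟩ := coeff_geo w n k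
  rw [hc]
  refine (l1_mul_le _ _).trans ?_
  rw [l1_natCast, mul_pow]
  apply Nat.mul_le_mul
  · exact (l1_pow_le _ _).trans (Nat.pow_le_pow_left hw _)
  · exact hc1.trans (Nat.pow_le_pow_left (by omega) _)

lemma aT_deg : aT.natDegree ≤ 2 := by
  rw [aT]
  refine (natDegree_sub_le _ _).trans ?_
  simp

lemma bT_deg : bT.natDegree ≤ 2 := by
  rw [bT]
  refine natDegree_mul_le.trans ?_
  rw [natDegree_X]
  have : (X - 1 : ℤ[X]).natDegree = 1 := by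
    have := natDegree_X_sub_C (1 : ℤ)
    simpa using this
  rw [this]

lemma cT_deg : cT.natDegree ≤ 2 := by
  rw [cT]
  refine natDegree_mul_le.trans ?_
  rw [natDegree_X]
  have : (X + 1 : ℤ[X]).natDegree = 1 := by
    have := natDegree_X_add_C (1 : ℤ)
    simpa using this
  rw [this]

lemma l1_X_add_one : l1 (X + 1) ≤ 2 := by
  refine (l1_add_le _ _).trans ?_
  rw [l1_X, l1_one]

lemma l1_X_sub_one : l1 (X - 1) ≤ 2 := by
  refine (l1_sub_le _ _).trans ?_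
  rw [l1_X, l1_one]

lemma aT_l1 : l1 aT ≤ 2 := by
  rw [aT]
  refine (l1_sub_le _ _).trans ?_
  rw [l1_X_pow, l1_one]

lemma bT_l1 : l1 bT ≤ 2 := by
  rw [bT]
  refine (l1_mul_le _ _).trans ?_
  rw [l1_X, one_mul]
  exact l1_X_sub_one

lemma cT_l1 : l1 cT ≤ 2 := by
  rw [cT]
  refine (l1_mul_le _ _).trans ?_
  rw [l1_X, one_mul]
  exact l1_X_add_one

lemma us_DegB (N : ℕ) (β : ℕ × ℕ × ℕ) : DegB (us N β) :=
  ((geo_DegB _ aT_deg _).mul (geo_DegB _ bT_deg _)).mul (geo_DegB _ cT_deg _)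

/-- base of the size bounds -/
def WW (N κ : ℕ) : ℕ := 6 * (κ * N + κ ^ 3)

lemma us_LB (N κ : ℕ) (β : ℕ × ℕ × ℕ) (hβ : β.1 ≤ κ ∧ β.2.1 ≤ κ ∧ β.2.2 ≤ κ) :
    ∀ k ≤ κ ^ 3, l1 (PowerSeries.coeff k (us N β)) ≤ WW N κ ^ k := by
  intro k hk
  have h := ((geo_LB aT aT_l1 (β.1 * N) (κ ^ 3)).mul (geo_LB bT bT_l1 (β.2.1 * N) (κ ^ 3))).mul
    (geo_LB cT cT_l1 (β.2.2 * N) (κ ^ 3)) k hk
  refine h.trans (Nat.pow_le_pow_left ?_ _)
  rw [WW]
  have h1 : β.1 * N ≤ κ * N := Nat.mul_le_mul_right _ hβ.1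
  have h2 : β.2.1 * N ≤ κ * N := Nat.mul_le_mul_right _ hβ.2.1
  have h3 : β.2.2 * N ≤ κ * N := Nat.mul_le_mul_right _ hβ.2.2
  omega

/-- size bound for matrix entries -/
def SS (N κ : ℕ) : ℕ := WW N κ ^ (κ ^ 3)

lemma one_le_WW (N κ : ℕ) (hκ : 1 ≤ κ) : 1 ≤ WW N κ := by
  rw [WW]
  have : 1 ≤ κ ^ 3 := Nat.one_le_pow _ _ hκ
  omega

lemma one_le_SS (N κ : ℕ) (hκ : 1 ≤ κ) : 1 ≤ SS N κ := Nat.one_le_pow _ _ (one_le_WW N κ hκ)

lemma us_coeff_l1 (N κ : ℕ) (hκ : 1 ≤ κ) (β : ℕ × ℕ × ℕ)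
    (hβ : β.1 ≤ κ ∧ β.2.1 ≤ κ ∧ β.2.2 ≤ κ) (k : Fin (κ ^ 3)) :
    l1 (PowerSeries.coeff (k : ℕ) (us N β)) ≤ SS N κ :=
  (us_LB N κ β hβ k k.2.le).trans (Nat.pow_le_pow_right (one_le_WW N κ hκ) k.2.le)

lemma al_le (κ : ℕ) (r : Fin (κ ^ 3)) :
    (al κ r).1 ≤ κ ∧ (al κ r).2.1 ≤ κ ∧ (al κ r).2.2 ≤ κ := by
  obtain ⟨a, b, c⟩ := al_lt κ r
  exact ⟨a.le, b.le, c.le⟩

/-- size bound for the minors -/
def TT (N κ : ℕ) : ℕ := (κ ^ 3).factorial * SS N κ ^ (κ ^ 3)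

lemma one_le_TT (N κ : ℕ) (hκ : 1 ≤ κ) : 1 ≤ TT N κ := by
  rw [TT]
  exact Nat.mul_pos (Nat.factorial_pos _) (Nat.one_le_pow _ _ (one_le_SS N κ hκ))

lemma Del_l1 (N κ : ℕ) (hκ : 1 ≤ κ) : l1 (Del N κ) ≤ TT N κ := by
  have := l1_det_le (MM N κ) (SS N κ) (fun k r => us_coeff_l1 N κ hκ _ (al_le κ r) k)
  rwa [Fintype.card_fin] at this

lemma Del_deg (N κ : ℕ) : (Del N κ).natDegree ≤ κ ^ 3 * (2 * κ ^ 3) := by
  have := natDegree_det_le (MM N κ) (2 * κ ^ 3) (fun k r => (us_DegB N (al κ r) k).trans (by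
    have := k.2
    omega))
  rwa [Fintype.card_fin] at this

lemma adj_l1 (N κ : ℕ) (hκ : 1 ≤ κ) (r k : Fin (κ ^ 3)) :
    l1 ((MM N κ).adjugate r k) ≤ TT N κ := by
  rw [Matrix.adjugate_apply]
  have := l1_det_le ((MM N κ).updateRow k (Pi.single r 1)) (SS N κ) (fun i j => by
    by_cases h : i = k
    · subst h
      rw [Matrix.updateRow_self]
      by_cases h2 : j = r
      · subst h2
        rw [Pi.single_eq_same, l1_one]
        exact one_le_SS N κ hκ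
      · rw [Pi.single_eq_of_ne h2, l1_zero]
        exact Nat.zero_le _
    · rw [Matrix.updateRow_ne h]
      exact us_coeff_l1 N κ hκ _ (al_le κ j) i)
  rwa [Fintype.card_fin] at this

lemma adj_deg (N κ : ℕ) (r k : Fin (κ ^ 3)) :
    ((MM N κ).adjugate r k).natDegree ≤ κ ^ 3 * (2 * κ ^ 3) := by
  rw [Matrix.adjugate_apply]
  have := natDegree_det_le ((MM N κ).updateRow k (Pi.single r 1)) (2 * κ ^ 3) (fun i j => by
    by_cases h : i = k
    · subst h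
      rw [Matrix.updateRow_self]
      by_cases h2 : j = r
      · subst h2
        rw [Pi.single_eq_same, natDegree_one]
        exact Nat.zero_le _
      · rw [Pi.single_eq_of_ne h2, natDegree_zero]
        exact Nat.zero_le _
    · rw [Matrix.updateRow_ne h]
      exact (us_DegB N (al κ j) i).trans (by
        have := i.2
        omega))
  rwa [Fintype.card_fin] at this

lemma es_l1 (N κ : ℕ) (β : ℕ × ℕ × ℕ) (hβ : β.1 ≤ κ ∧ β.2.1 ≤ κ ∧ β.2.2 ≤ κ) :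
    l1 (es N β) ≤ 4 ^ (κ * N) := by
  rw [es]
  refine (l1_mul_le _ _).trans ?_
  have h1 : l1 (X ^ (β.1 * N) * (X + 1) ^ (β.2.1 * N)) ≤ 2 ^ (κ * N) := by
    refine (l1_mul_le _ _).trans ?_
    rw [l1_X_pow, one_mul]
    refine (l1_pow_le _ _).trans ((Nat.pow_le_pow_left l1_X_add_one _).trans ?_)
    exact Nat.pow_le_pow_right (by norm_num) (Nat.mul_le_mul_right _ hβ.2.1)
  have h2 : l1 ((X - 1) ^ (β.2.2 * N)) ≤ 2 ^ (κ * N) := by
    refine (l1_pow_le _ _).trans ((Nat.pow_le_pow_left l1_X_sub_one _).trans ?_)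
    exact Nat.pow_le_pow_right (by norm_num) (Nat.mul_le_mul_right _ hβ.2.2)
  refine (Nat.mul_le_mul h1 h2).trans (le_of_eq ?_)
  rw [← mul_pow]
  norm_num

lemma es_monic (N : ℕ) (β : ℕ × ℕ × ℕ) : (es N β).Monic := by
  rw [es]
  have h1 : (X + 1 : ℤ[X]).Monic := by
    have := monic_X_add_C (1 : ℤ)
    simpa using this
  have h2 : (X - 1 : ℤ[X]).Monic := by
    have := monic_X_sub_C (1 : ℤ)
    simpa using this
  exact ((monic_X_pow _).mul (h1.pow _)).mul (h2.pow _)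

lemma es_deg (N : ℕ) (β : ℕ × ℕ × ℕ) : (es N β).natDegree = (β.1 + β.2.1 + β.2.2) * N := by
  have h1 : (X + 1 : ℤ[X]).Monic := by
    have := monic_X_add_C (1 : ℤ)
    simpa using this
  have h2 : (X - 1 : ℤ[X]).Monic := by
    have := monic_X_sub_C (1 : ℤ)
    simpa using this
  have h1' : (X + 1 : ℤ[X]).natDegree = 1 := by
    have := natDegree_X_add_C (1 : ℤ)
    simpa using this
  have h2' : (X - 1 : ℤ[X]).natDegree = 1 := by
    have := natDegree_X_sub_C (1 : ℤ)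
    simpa using this
  rw [es, ((monic_X_pow _).mul (h1.pow _)).natDegree_mul (h2.pow _),
    (monic_X_pow _).natDegree_mul (h1.pow _), h1.natDegree_pow, h2.natDegree_pow, natDegree_X_pow,
    h1', h2']
  ring

lemma QQ_l1 (N κ : ℕ) (hκ : 1 ≤ κ) (k : Fin (κ ^ 3)) :
    l1 (QQ N κ k) ≤ κ ^ 3 * (TT N κ * 4 ^ (κ * N)) := by
  rw [QQ]
  refine (l1_sum_le _ _).trans ?_
  refine (Finset.sum_le_sum (g := fun _ => TT N κ * 4 ^ (κ * N)) ?_).trans ?_
  · intro r _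
    exact (l1_mul_le _ _).trans (Nat.mul_le_mul (adj_l1 N κ hκ r k) (es_l1 N κ _ (al_le κ r)))
  · simp

lemma QQ_deg (N κ : ℕ) (k : Fin (κ ^ 3)) :
    (QQ N κ k).natDegree ≤ κ ^ 3 * (2 * κ ^ 3) + 3 * (κ - 1) * N := by
  rw [QQ]
  apply Polynomial.natDegree_sum_le_of_forall_le
  intro r _
  refine natDegree_mul_le.trans ?_
  apply Nat.add_le_add (adj_deg N κ r k)
  rw [es_deg]
  apply Nat.mul_le_mul_right
  obtain ⟨a, b, c⟩ := al_lt κ r
  omega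

/-- size bound for the auxiliary polynomials -/
def HH (N κ : ℕ) : ℕ := (1 + κ ^ 3 * (SS N κ * κ ^ 3)) * TT N κ * 4 ^ (κ * N)

lemma Psi_l1 (N κ : ℕ) (hκ : 1 ≤ κ) (β : ℕ × ℕ × ℕ) (hβ : β.1 ≤ κ ∧ β.2.1 ≤ κ ∧ β.2.2 ≤ κ) :
    l1 (Psi N κ β) ≤ HH N κ := by
  rw [Psi]
  refine (l1_sub_le _ _).trans ?_
  have h1 : l1 (Del N κ * es N β) ≤ TT N κ * 4 ^ (κ * N) :=
    (l1_mul_le _ _).trans (Nat.mul_le_mul (Del_l1 N κ hκ) (es_l1 N κ _ hβ))
  have h2 : l1 (∑ k : Fin (κ ^ 3), PowerSeries.coeff (k : ℕ) (us N β) * QQ N κ k) ≤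
      κ ^ 3 * (SS N κ * (κ ^ 3 * (TT N κ * 4 ^ (κ * N)))) := by
    refine (l1_sum_le _ _).trans ?_
    refine (Finset.sum_le_sum
      (g := fun _ => SS N κ * (κ ^ 3 * (TT N κ * 4 ^ (κ * N)))) ?_).trans ?_
    · intro k _
      exact (l1_mul_le _ _).trans (Nat.mul_le_mul (us_coeff_l1 N κ hκ β hβ k) (QQ_l1 N κ hκ k))
    · simp
  refine (Nat.add_le_add h1 h2).trans (le_of_eq ?_)
  rw [HH]
  ring

lemma second_deg (N κ : ℕ) (hκ : 1 ≤ κ) (β : ℕ × ℕ × ℕ) :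
    (∑ k : Fin (κ ^ 3), PowerSeries.coeff (k : ℕ) (us N β) * QQ N κ k).natDegree ≤
      2 * κ ^ 3 + (κ ^ 3 * (2 * κ ^ 3) + 3 * (κ - 1) * N) := by
  apply Polynomial.natDegree_sum_le_of_forall_le
  intro k _
  refine natDegree_mul_le.trans ?_
  apply Nat.add_le_add _ (QQ_deg N κ k)
  refine (us_DegB N β k).trans ?_
  have := k.2
  omega

/-- the threshold ensuring that the top exponent dominates -/
def NN (κ : ℕ) : ℕ := 2 * κ ^ 3 + κ ^ 3 * (2 * κ ^ 3)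

lemma second_deg' (N κ : ℕ) (hκ : 1 ≤ κ) (hN : NN κ < N) (β : ℕ × ℕ × ℕ) :
    (∑ k : Fin (κ ^ 3), PowerSeries.coeff (k : ℕ) (us N β) * QQ N κ k).natDegree < 3 * κ * N := by
  refine lt_of_le_of_lt (second_deg N κ hκ β) ?_
  rw [NN] at hN
  obtain ⟨c, rfl⟩ : ∃ c, κ = c + 1 := ⟨κ - 1, by omega⟩
  simp only [Nat.add_sub_cancel]
  have : 3 * (c + 1) * N = 3 * c * N + 3 * N := by ring
  rw [this]
  omega

lemma Psi_deg (N κ : ℕ) (hκ : 1 ≤ κ) (hN : NN κ < N) (β : ℕ × ℕ × ℕ)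
    (hβ : β.1 ≤ κ ∧ β.2.1 ≤ κ ∧ β.2.2 ≤ κ) :
    (Psi N κ β).natDegree ≤ (Del N κ).natDegree + 3 * κ * N := by
  rw [Psi]
  refine (natDegree_sub_le _ _).trans (max_le ?_ ?_)
  · refine natDegree_mul_le.trans ?_
    rw [es_deg]
    apply Nat.add_le_add_left
    apply Nat.mul_le_mul_right
    omega
  · have := second_deg' N κ hκ hN β
    omega

lemma Psi_top (N κ : ℕ) (hκ : 1 ≤ κ) (hN : NN κ < N) (hD : Del N κ ≠ 0) :
    (Psi N κ (κ, κ, κ)).natDegree = (Del N κ).natDegree + 3 * κ * N ∧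
    (Psi N κ (κ, κ, κ)).leadingCoeff = (Del N κ).leadingCoeff := by
  have h1 : (Del N κ * es N (κ, κ, κ)).natDegree = (Del N κ).natDegree + 3 * κ * N := by
    rw [natDegree_mul hD (es_monic N _).ne_zero, es_deg]
    ring
  have h2 := second_deg' N κ hκ hN (κ, κ, κ)
  have h3 : (∑ k : Fin (κ ^ 3), PowerSeries.coeff (k : ℕ) (us N (κ, κ, κ)) * QQ N κ k).degree <
      (Del N κ * es N (κ, κ, κ)).degree := by
    apply degree_lt_degree
    rw [h1]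
    omega
  constructor
  · rw [Psi, natDegree_sub_eq_left_of_natDegree_lt (by rw [h1]; omega), h1]
  · rw [Psi, leadingCoeff_sub_of_degree_lt h3, leadingCoeff_mul, (es_monic N _).leadingCoeff,
      mul_one]

end Pool.Agent.Lib.MP_df6954_nt
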