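import Pool.Agent.Lib.MP_df6954_nt.Gcd

set_option autoImplicit false

open Polynomial

namespace Pool.Agent.Lib.MP_df6954_nt

lemma span_three_eq_top (N : ℕ) (hN : 1 ≤ N) :
    Ideal.span {hat (X ^ N - 1), hat ((X + 1) ^ N - 1), hat ((X - 1) ^ N - 1)} = ⊤ := by
  set I : Ideal ℚ[X] := Ideal.span {hat (X ^ N - 1), hat ((X + 1) ^ N - 1), hat ((X - 1) ^ N - 1)}
    with hI
  obtain ⟨p, hp⟩ : ∃ g : ℚ[X], I = Ideal.span {g} := by
    obtain ⟨g, hg⟩ := (IsPrincipalIdealRing.principal I).principal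
    exact ⟨g, hg⟩
  have d1 : p ∣ hat (X ^ N - 1) := by
    rw [← Ideal.mem_span_singleton, ← hp]
    exact Ideal.subset_span (by simp)
  have d2 : p ∣ hat ((X + 1) ^ N - 1) := by
    rw [← Ideal.mem_span_singleton, ← hp]
    exact Ideal.subset_span (by simp)
  have d3 : p ∣ hat ((X - 1) ^ N - 1) := by
    rw [← Ideal.mem_span_singleton, ← hp]
    exact Ideal.subset_span (by simp)
  have hf0 : hat (X ^ N - 1) ≠ 0 := by
    apply (Polynomial.map_ne_zero_iff (Int.castRingHom ℚ).injective_int).mpr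
    have := X_pow_sub_C_ne_zero (R := ℤ) (n := N) (by omega) 1
    simpa using this
  have hp0 : p ≠ 0 := by
    intro h0
    rw [h0, zero_dvd_iff] at d1
    exact hf0 d1
  have hdeg : p.degree = 0 := by
    by_contra hne
    obtain ⟨z, hz⟩ := IsAlgClosed.exists_aeval_eq_zero ℂ p hne
    have ev : ∀ q : ℤ[X], p ∣ hat q → aeval z q = 0 := by
      intro q hq
      obtain ⟨r, hr⟩ := hq
      have e1 : aeval z (hat q) = aeval z q := by
        rw [hat]
        exact aeval_map_algebraMap ℚ z q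
      rw [← e1, hr, map_mul, hz, zero_mul]
    have e1 := ev _ d1
    have e2 := ev _ d2
    have e3 := ev _ d3
    simp only [map_sub, map_pow, aeval_X, map_one, map_add, sub_eq_zero] at e1 e2 e3
    have n1 : ‖z‖ = 1 := Complex.norm_eq_one_of_pow_eq_one e1 (by omega)
    have n2 : ‖z + 1‖ = 1 := Complex.norm_eq_one_of_pow_eq_one e2 (by omega)
    have n3 : ‖z - 1‖ = 1 := Complex.norm_eq_one_of_pow_eq_one e3 (by omega)
    have hpar := parallelogram_law_with_norm ℝ z (1 : ℂ)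
    rw [n1, n2, n3, norm_one] at hpar
    norm_num at hpar
  have hu : IsUnit p := isUnit_iff_degree_eq_zero.mpr hdeg
  rw [hp, Ideal.span_singleton_eq_top]
  exact hu

lemma exists_abc (N : ℕ) (hN : 1 ≤ N) : ∃ a b c : ℚ[X],
    a * hat (X ^ N - 1) + b * hat ((X + 1) ^ N - 1) + c * hat ((X - 1) ^ N - 1) = 1 := by
  have h := span_three_eq_top N hN
  rw [Ideal.eq_top_iff_one, Ideal.mem_span_insert] at h
  obtain ⟨a, z, hz, h1⟩ := h
  rw [Ideal.mem_span_pair] at hz
  obtain ⟨b, c, hbc⟩ := hz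
  refine ⟨a, b, c, ?_⟩
  rw [h1, ← hbc]
  ring

/-- degree bound -/
def DD (N κ : ℕ) : ℕ := κ ^ 3 * (2 * κ ^ 3) + 3 * κ * N

lemma f_pow_mem {R : Type*} [CommRing R] (τ : R) (p : ℤ[X]) (hp : aeval τ p = 0) (m : ℕ) :
    p ^ m ∈ Jid τ m := by
  rw [mem_Jid, map_pow]
  apply pow_dvd_pow_of_dvd
  rw [X_dvd_iff, psi_coeff_zero]
  exact hp

theorem main_count {R : Type*} [CommRing R] [Finite R] (τ : R) (N κ : ℕ) (hκ : 1 ≤ κ)
    (hN : NN κ < N) (hD : Del N κ ≠ 0) (h1 : τ ^ N = 1) (h2 : (τ + 1) ^ N = 1)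
    (h3 : (τ - 1) ^ N = 1) (hsurj : ∀ r : R, ∃ p : ℤ[X], aeval τ p = r) :
    Nat.card R ^ (κ ^ 3) ≤
      (2 ^ DD N κ * HH N κ) ^ (2 * DD N κ) * TT N κ ^ (3 * (κ ^ 3 * N)) *
        ((2 ^ N + 1) ^ (κ ^ 3)) ^ (2 * (κ ^ 3 * (2 * κ ^ 3))) * N ^ (N * (κ ^ 3 * κ ^ 3)) := by
  classical
  have hN1 : 1 ≤ N := by omega
  set m := κ ^ 3 with hm
  set J := Jid τ m with hJ
  have hfinB : Finite (ℤ[X] ⧸ J) := Jid_finite τ m
  set f : ℤ[X] := X ^ N - 1 with hf
  set g : ℤ[X] := (X + 1) ^ N - 1 with hg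
  set h : ℤ[X] := (X - 1) ^ N - 1 with hh
  have hfJ : f ^ m ∈ J := f_pow_mem τ f (by simp [hf, h1]) m
  have hgJ : g ^ m ∈ J := f_pow_mem τ g (by simp [hg, h2]) m
  have hhJ : h ^ m ∈ J := f_pow_mem τ h (by simp [hh, h3]) m
  have hfmon : f.Monic := by
    have := monic_X_pow_sub_C (1 : ℤ) (n := N) (by omega)
    simpa [hf] using this
  have hfdeg : f.natDegree = N := by
    have := natDegree_X_pow_sub_C (R := ℤ) (n := N) (r := 1)
    simpa [hf] using this
  have hgdeg : g.natDegree ≤ N := by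
    rw [hg]
    refine (natDegree_sub_le _ _).trans ?_
    have : (X + 1 : ℤ[X]).natDegree = 1 := by
      have := natDegree_X_add_C (1 : ℤ)
      simpa using this
    rw [natDegree_one, max_eq_left (Nat.zero_le _)]
    refine natDegree_pow_le.trans ?_
    rw [this, mul_one]
  have hhdeg : h.natDegree ≤ N := by
    rw [hh]
    refine (natDegree_sub_le _ _).trans ?_
    have : (X - 1 : ℤ[X]).natDegree = 1 := by
      have := natDegree_X_sub_C (1 : ℤ)
      simpa using this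
    rw [natDegree_one, max_eq_left (Nat.zero_le _)]
    refine natDegree_pow_le.trans ?_
    rw [this, mul_one]
  have hfm_mon : (f ^ m).Monic := hfmon.pow m
  have hfm_deg : (f ^ m).natDegree = m * N := by rw [hfmon.natDegree_pow, hfdeg]
  -- the family
  let ex : Fin (κ + 1) × Fin (κ + 1) × Fin (κ + 1) → ℕ × ℕ × ℕ := fun i => (i.1, i.2.1, i.2.2)
  have hex : ∀ i, (ex i).1 ≤ κ ∧ (ex i).2.1 ≤ κ ∧ (ex i).2.2 ≤ κ := fun i =>
    ⟨Nat.lt_succ_iff.mp i.1.2, Nat.lt_succ_iff.mp i.2.1.2, Nat.lt_succ_iff.mp i.2.2.2⟩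
  let F : Fin (κ + 1) × Fin (κ + 1) × Fin (κ + 1) → ℤ[X] := fun i => Psi N κ (ex i)
  let i0 : Fin (κ + 1) × Fin (κ + 1) × Fin (κ + 1) := (Fin.last κ, Fin.last κ, Fin.last κ)
  have hex0 : ex i0 = (κ, κ, κ) := by simp [ex, i0]
  obtain ⟨htopdeg, htoplc⟩ := Psi_top N κ hκ hN hD
  have hF0 : F i0 ≠ 0 := by
    intro h0
    have : (Psi N κ (κ, κ, κ)).leadingCoeff = 0 := by
      have h0' : Psi N κ (ex i0) = 0 := h0
      rw [hex0] at h0'
      rw [h0', leadingCoeff_zero]
    rw [htoplc, leadingCoeff_eq_zero] at this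
    exact hD this
  obtain ⟨G, hG0, ⟨F', hFF', hspan⟩, hGdvd⟩ := gcd_extract F i0 hF0
  have hGDel : G ∣ Del N κ ^ 2 := by
    apply hGdvd
    intro q hq
    obtain ⟨a, b, c, habc⟩ := exists_abc N hN1
    apply dvd_Del_sq N κ hκ q _ a b c habc
    intro β hβ
    have := hq (⟨β.1, by omega⟩, ⟨β.2.1, by omega⟩, ⟨β.2.2, by omega⟩)
    exact this
  have hFJ : ∀ i, F i ∈ J := fun i => Psi_mem N κ (ex i) (hex i) τ h1 h2 h3
  -- the quotient map
  let mk : ℤ[X] →+* ℤ[X] ⧸ J := Ideal.Quotient.mk J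
  let S1 : AddSubgroup (ℤ[X] ⧸ J) := (AddMonoidHom.mulLeft (mk G)).range
  let φ : ℤ[X] →+ ℤ[X] ⧸ J := (AddMonoidHom.mulLeft (mk G)).comp mk.toAddMonoidHom
  have hφ : ∀ q, φ q = mk (G * q) := by
    intro q
    change mk G * mk q = mk (G * q)
    rw [map_mul]
  have hφrange : φ.range = S1 := by
    ext x
    constructor
    · rintro ⟨q, rfl⟩
      exact ⟨mk q, rfl⟩
    · rintro ⟨y, rfl⟩
      obtain ⟨q, rfl⟩ := Ideal.Quotient.mk_surjective y
      exact ⟨q, rfl⟩
  have hφF : ∀ i q, φ (F' i * q) = 0 := by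
    intro i q
    rw [hφ, ← mul_assoc, ← hFF' i]
    exact Ideal.Quotient.eq_zero_iff_mem.mpr (J.mul_mem_right _ (hFJ i))
  have hφf : ∀ q, φ (f ^ m * q) = 0 := by
    intro q
    rw [hφ]
    exact Ideal.Quotient.eq_zero_iff_mem.mpr (J.mul_mem_left _ (J.mul_mem_right _ hfJ))
  -- degree data
  set d1 := (F' i0).natDegree with hd1
  have hF'0 : F' i0 ≠ 0 := by
    intro h0
    apply hF0
    rw [hFF' i0, h0, mul_zero]
  have hdF0 : (F i0).natDegree = (Del N κ).natDegree + 3 * κ * N := by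
    change (Psi N κ (ex i0)).natDegree = _
    rw [hex0, htopdeg]
  have hdG : G.natDegree + d1 = (Del N κ).natDegree + 3 * κ * N := by
    rw [← hdF0, hFF' i0, natDegree_mul hG0 hF'0]
  have hdF' : ∀ i, (F' i).natDegree ≤ d1 := by
    intro i
    by_cases hi : F' i = 0
    · rw [hi, natDegree_zero]
      exact Nat.zero_le _
    · have e1 : (F i).natDegree = G.natDegree + (F' i).natDegree := by
        rw [hFF' i, natDegree_mul hG0 hi]
      have e2 : (F i).natDegree ≤ (Del N κ).natDegree + 3 * κ * N :=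
        Psi_deg N κ hκ hN (ex i) (hex i)
      omega
  have hd1DD : d1 ≤ DD N κ := by
    have := Del_deg N κ
    rw [DD]
    omega
  have hl1F' : ∀ i, l1 (F' i) ≤ 2 ^ DD N κ * HH N κ := by
    intro i
    refine (l1_factor_le G (F' i) hG0).trans ?_
    apply Nat.mul_le_mul
    · exact Nat.pow_le_pow_right (by norm_num) ((hdF' i).trans hd1DD)
    · rw [← hFF' i]
      exact Psi_l1 N κ hκ (ex i) (hex i)
  have hH1 : 1 ≤ 2 ^ DD N κ * HH N κ := by
    have := one_le_l1 hF'0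
    exact this.trans (hl1F' i0)
  -- bound for S1
  have hcard1 : Nat.card (imgLT φ (d1 + d1)) ≤ (2 ^ DD N κ * HH N κ) ^ (2 * DD N κ) := by
    have hL := card_imgLT_le φ (F' i0) F' d1 d1 hF'0 hd1.symm hdF'
      (by
        rw [eq_top_iff, ← hspan]
        apply Ideal.span_mono
        exact Set.subset_insert _ _)
      (fun j => by rw [mul_comm]; exact hφF i0 _)
      (fun e i => by rw [mul_comm]; exact hφF e _)
      _ _ (hl1F' i0) hl1F'
    refine hL.trans ?_
    rw [← pow_add]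
    exact Nat.pow_le_pow_right hH1 (by omega)
  have hcard2 : Nat.card S1 ≤ (2 ^ DD N κ * HH N κ) ^ (2 * DD N κ) * TT N κ ^ (m * N) := by
    have hL := card_imgLT_add_le φ (F' i0) hF'0 (hφF i0) (n := d1 + d1) (by omega) (m * N)
    rw [imgLT_eq_range φ (f ^ m) hfm_mon hφf (by rw [hfm_deg]; omega), hφrange] at hL
    refine hL.trans (Nat.mul_le_mul hcard1 (Nat.pow_le_pow_left ?_ _))
    have e1 : (F i0).leadingCoeff = G.leadingCoeff * (F' i0).leadingCoeff := by
      rw [hFF' i0, leadingCoeff_mul]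
    have e2 : (F i0).leadingCoeff = (Del N κ).leadingCoeff := by
      change (Psi N κ (ex i0)).leadingCoeff = _
      rw [hex0, htoplc]
    have e3 : (Del N κ).leadingCoeff.natAbs = G.leadingCoeff.natAbs * (F' i0).leadingCoeff.natAbs := by
      rw [← e2, e1, Int.natAbs_mul]
    have e4 : 1 ≤ G.leadingCoeff.natAbs := Int.natAbs_pos.mpr (leadingCoeff_ne_zero.mpr hG0)
    have e5 : (Del N κ).leadingCoeff.natAbs ≤ TT N κ :=
      (natAbs_coeff_le_l1 _ _).trans (Del_l1 N κ hκ)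
    calc (F' i0).leadingCoeff.natAbs ≤ G.leadingCoeff.natAbs * (F' i0).leadingCoeff.natAbs :=
          Nat.le_mul_of_pos_left _ e4
      _ = (Del N κ).leadingCoeff.natAbs := e3.symm
      _ ≤ TT N κ := e5
  -- bound for the index of S1
  let S2 : AddSubgroup (ℤ[X] ⧸ J) := (AddMonoidHom.mulLeft (mk (Del N κ ^ 2))).range
  have hS21 : S2 ≤ S1 := by
    rintro _ ⟨y, rfl⟩
    obtain ⟨q, hq⟩ := hGDel
    refine ⟨mk q * y, ?_⟩
    change mk G * (mk q * y) = mk (Del N κ ^ 2) * y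
    rw [hq, map_mul, mul_assoc]
  let φ2 : ℤ[X] →+ (ℤ[X] ⧸ J) ⧸ S2 := (QuotientAddGroup.mk' S2).comp mk.toAddMonoidHom
  have hφ2 : ∀ q, φ2 q = QuotientAddGroup.mk' S2 (mk q) := fun _ => rfl
  have hφ2J : ∀ q ∈ J, φ2 q = 0 := by
    intro q hq
    rw [hφ2]
    have : mk q = 0 := Ideal.Quotient.eq_zero_iff_mem.mpr hq
    rw [this, map_zero]
  have hφ2D : ∀ q, φ2 (q * Del N κ ^ 2) = 0 := by
    intro q
    rw [hφ2, QuotientAddGroup.mk'_apply, QuotientAddGroup.eq_zero_iff]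
    refine ⟨mk q, ?_⟩
    change mk (Del N κ ^ 2) * mk q = mk (q * Del N κ ^ 2)
    rw [map_mul, mul_comm]
  have hDsq : Del N κ ^ 2 ≠ 0 := pow_ne_zero _ hD
  let F3 : Fin 3 → ℤ[X] := ![f ^ m, g ^ m, h ^ m]
  set d2 := (Del N κ ^ 2).natDegree with hd2
  have hTT1 := one_le_TT N κ hκ
  have hlf : l1 f ≤ 2 ^ N + 1 := by
    rw [hf]
    refine (l1_sub_le _ _).trans ?_
    rw [l1_X_pow, l1_one]
    have : 1 ≤ 2 ^ N := Nat.one_le_two_pow
    omega
  have hlg : l1 g ≤ 2 ^ N + 1 := by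
    rw [hg]
    refine (l1_sub_le _ _).trans ?_
    rw [l1_one]
    exact Nat.add_le_add_right ((l1_pow_le _ _).trans (Nat.pow_le_pow_left l1_X_add_one _)) _
  have hlh : l1 h ≤ 2 ^ N + 1 := by
    rw [hh]
    refine (l1_sub_le _ _).trans ?_
    rw [l1_one]
    exact Nat.add_le_add_right ((l1_pow_le _ _).trans (Nat.pow_le_pow_left l1_X_sub_one _)) _
  have hcard3 : S1.index ≤ TT N κ ^ (2 * (m * N)) *
      ((2 ^ N + 1) ^ m) ^ (2 * (m * (2 * m))) := by
    have hL := card_imgLT_le φ2 (Del N κ ^ 2) F3 (m * N) d2 hDsq hd2.symm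
      (by
        intro e
        fin_cases e
        · change (f ^ m).natDegree ≤ m * N
          rw [hfm_deg]
        · change (g ^ m).natDegree ≤ m * N
          exact natDegree_pow_le.trans (Nat.mul_le_mul_left _ hgdeg)
        · change (h ^ m).natDegree ≤ m * N
          exact natDegree_pow_le.trans (Nat.mul_le_mul_left _ hhdeg))
      (by
        have hs := Ideal.span_pow_eq_top _ (span_three_eq_top N hN1) m
        rw [eq_top_iff, ← hs]
        apply Ideal.span_mono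
        apply Set.Subset.trans _ (Set.subset_insert _ _)
        rintro _ ⟨x, hx, rfl⟩
        simp only [Set.mem_insert_iff, Set.mem_singleton_iff] at hx
        rcases hx with rfl | rfl | rfl
        · exact ⟨0, by simp [F3, hf, hat, Polynomial.map_pow]⟩
        · exact ⟨1, by simp [F3, hg, hat, Polynomial.map_pow]⟩
        · exact ⟨2, by simp [F3, hh, hat, Polynomial.map_pow]⟩)
      (fun j => hφ2D _)
      (by
        intro e i
        apply hφ2J
        apply J.mul_mem_left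
        fin_cases e
        · exact hfJ
        · exact hgJ
        · exact hhJ)
      (TT N κ ^ 2) ((2 ^ N + 1) ^ m)
      ((l1_pow_le _ _).trans (Nat.pow_le_pow_left (Del_l1 N κ hκ) _))
      (by
        intro e
        fin_cases e
        · exact (l1_pow_le f m).trans (Nat.pow_le_pow_left hlf _)
        · exact (l1_pow_le g m).trans (Nat.pow_le_pow_left hlg _)
        · exact (l1_pow_le h m).trans (Nat.pow_le_pow_left hlh _))
    rw [imgLT_eq_range φ2 (f ^ m) hfm_mon (fun q => hφ2J _ (J.mul_mem_right _ hfJ))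
      (by rw [hfm_deg]; omega)] at hL
    have hr : φ2.range = ⊤ := by
      rw [AddMonoidHom.range_eq_top]
      intro x
      obtain ⟨y, rfl⟩ := QuotientAddGroup.mk'_surjective S2 x
      obtain ⟨q, rfl⟩ := Ideal.Quotient.mk_surjective y
      exact ⟨q, rfl⟩
    rw [hr, AddSubgroup.card_top] at hL
    have e1 : S2.index = Nat.card ((ℤ[X] ⧸ J) ⧸ S2) := rfl
    have e2 : S1.index ≤ S2.index := by
      apply Nat.le_of_dvd
      · rw [e1]
        exact Nat.card_pos
      · exact AddSubgroup.index_dvd_of_le hS21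
    refine e2.trans ?_
    rw [e1]
    refine hL.trans ?_
    apply Nat.mul_le_mul
    · rw [← pow_mul]
    · apply Nat.pow_le_pow_right
      · exact Nat.one_le_pow _ _ (Nat.succ_pos _)
      · have e3 : d2 = 2 * (Del N κ).natDegree := by
          rw [hd2, natDegree_pow]
        rw [e3]
        exact Nat.mul_le_mul_left _ (Del_deg N κ)
  have hcardB : Nat.card (ℤ[X] ⧸ J) = Nat.card S1 * S1.index := (AddSubgroup.card_mul_index S1).symm
  have hlow := card_lower τ N hN1 h1 hsurj m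
  refine hlow.trans ?_
  apply Nat.mul_le_mul_right
  rw [hcardB]
  refine (Nat.mul_le_mul hcard2 hcard3).trans (le_of_eq ?_)
  have : TT N κ ^ (3 * (m * N)) = TT N κ ^ (m * N) * TT N κ ^ (2 * (m * N)) := by
    rw [← pow_add]
    congr 1
    ring
  rw [this]
  ring

end Pool.Agent.Lib.MP_df6954_nt
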