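import Pool.Agent.Lib.MP_df6954_nt.Asymp

set_option autoImplicit false

open Polynomial Filter

namespace Pool.Agent.Lib.MP_df6954_nt

/-- The ideal in question. -/
noncomputable def II (N : ℕ) : Ideal ℤ[X] :=
  Ideal.span ({X ^ N - 1, (X + 1) ^ N - 1, (X - 1) ^ N - 1} : Set ℤ[X])

lemma log_card_le (ε : ℝ) (hε : 0 < ε) : ∀ᶠ N : ℕ in atTop,
    Real.log ((Nat.card (ℤ[X] ⧸ II N) : ℕ) : ℝ) ≤ ε * (N : ℝ) ^ 2 := by
  obtain ⟨κ, hκ⟩ := exists_nat_gt (68 / ε)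
  have hκ0 : (0 : ℝ) < κ := lt_trans (by positivity) hκ
  have hκ1 : 1 ≤ κ := by exact_mod_cast hκ0
  obtain ⟨A, B, hAB⟩ := asymp κ hκ1
  have hlog := eventually_log_le A B (ε / 2) (by positivity)
  filter_upwards [hAB, hlog, det_MM_ne_zero κ hκ1, eventually_gt_atTop (NN κ)]
    with N h1 h2 h3 h4
  by_cases hfin : Finite (ℤ[X] ⧸ II N)
  · set τ : ℤ[X] ⧸ II N := Ideal.Quotient.mk (II N) X with hτ
    have e1 : τ ^ N = 1 := by
      have : Ideal.Quotient.mk (II N) (X ^ N - 1) = 0 := by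
        apply Ideal.Quotient.eq_zero_iff_mem.mpr
        exact Ideal.subset_span (by simp)
      rw [map_sub, map_pow, map_one, sub_eq_zero] at this
      exact this
    have e2 : (τ + 1) ^ N = 1 := by
      have : Ideal.Quotient.mk (II N) ((X + 1) ^ N - 1) = 0 := by
        apply Ideal.Quotient.eq_zero_iff_mem.mpr
        exact Ideal.subset_span (by simp)
      rw [map_sub, map_pow, map_add, map_one, sub_eq_zero] at this
      exact this
    have e3 : (τ - 1) ^ N = 1 := by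
      have : Ideal.Quotient.mk (II N) ((X - 1) ^ N - 1) = 0 := by
        apply Ideal.Quotient.eq_zero_iff_mem.mpr
        exact Ideal.subset_span (by simp)
      rw [map_sub, map_pow, map_sub, map_one, sub_eq_zero] at this
      exact this
    have hsurj : ∀ r : ℤ[X] ⧸ II N, ∃ p : ℤ[X], aeval τ p = r := by
      intro r
      obtain ⟨p, rfl⟩ := Ideal.Quotient.mk_surjective r
      refine ⟨p, ?_⟩
      have h5 : (aeval τ : ℤ[X] →ₐ[ℤ] ℤ[X] ⧸ II N) = Ideal.Quotient.mkₐ ℤ (II N) := by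
        apply Polynomial.algHom_ext
        rw [aeval_X]
        rfl
      rw [h5]
      rfl
    have hcount := main_count τ N κ hκ1 h4 h3 e1 e2 e3 hsurj
    have h6 := h1 (Nat.card (ℤ[X] ⧸ II N)) Nat.card_pos hcount
    have hN0 : (0 : ℝ) ≤ N := Nat.cast_nonneg N
    have h7 : (34 : ℝ) / κ ≤ ε / 2 := by
      rw [div_lt_iff₀ hε] at hκ
      rw [div_le_iff₀ hκ0]
      linarith
    calc Real.log ((Nat.card (ℤ[X] ⧸ II N) : ℕ) : ℝ)
        ≤ 34 / κ * (N : ℝ) ^ 2 + N * (A + B * Real.log N) := h6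
      _ ≤ ε / 2 * (N : ℝ) ^ 2 + N * (ε / 2 * N) := by
          apply add_le_add
          · exact mul_le_mul_of_nonneg_right h7 (by positivity)
          · exact mul_le_mul_of_nonneg_left h2 hN0
      _ = ε * (N : ℝ) ^ 2 := by ring
  · rw [not_finite_iff_infinite] at hfin
    rw [Nat.card_eq_zero_of_infinite, Nat.cast_zero, Real.log_zero]
    positivity

theorem main (ε : ℝ) (hε : 0 < ε) : ∃ c : ℝ, ∀ N : ℕ, 1 ≤ N →
    Real.log ((Nat.card (ℤ[X] ⧸ II N) : ℕ) : ℝ) ≤ ε * (N : ℝ) ^ 2 + c := by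
  obtain ⟨N0, hN0⟩ := eventually_atTop.mp (log_card_le ε hε)
  refine ⟨∑ n ∈ Finset.range N0, |Real.log ((Nat.card (ℤ[X] ⧸ II n) : ℕ) : ℝ)|, ?_⟩
  intro N _
  have hnonneg : 0 ≤ ∑ n ∈ Finset.range N0, |Real.log ((Nat.card (ℤ[X] ⧸ II n) : ℕ) : ℝ)| :=
    Finset.sum_nonneg fun _ _ => abs_nonneg _
  rcases Nat.lt_or_ge N N0 with h | h
  · have h1 : |Real.log ((Nat.card (ℤ[X] ⧸ II N) : ℕ) : ℝ)| ≤
        ∑ n ∈ Finset.range N0, |Real.log ((Nat.card (ℤ[X] ⧸ II n) : ℕ) : ℝ)| :=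
      Finset.single_le_sum (f := fun n => |Real.log ((Nat.card (ℤ[X] ⧸ II n) : ℕ) : ℝ)|)
        (fun _ _ => abs_nonneg _) (Finset.mem_range.mpr h)
    have h2 := le_abs_self (Real.log ((Nat.card (ℤ[X] ⧸ II N) : ℕ) : ℝ))
    have h3 : 0 ≤ ε * (N : ℝ) ^ 2 := by positivity
    linarith
  · have := hN0 N h
    linarith

end Pool.Agent.Lib.MP_df6954_nt
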