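import Pool.Agent.Lib.MP_df6954_nt.Bounds

set_option autoImplicit false

open Polynomial

namespace Pool.Agent.Lib.MP_df6954_nt

lemma l1_eq_complex_sum (p : ℤ[X]) :
    ((p.map (Int.castRingHom ℂ)).sum fun _ a => ‖a‖) = (l1 p : ℝ) := by
  have hinj : Function.Injective (Int.castRingHom ℂ) := (Int.castRingHom ℂ).injective_int
  rw [Polynomial.sum_def, support_map_of_injective _ hinj, l1]
  push_cast
  apply Finset.sum_congr rfl
  intro i _
  rw [coeff_map, eq_intCast, Complex.norm_intCast, Nat.cast_natAbs, Int.cast_abs]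

/-- A factor of an integer polynomial has controlled L1 norm. -/
lemma l1_factor_le (A B : ℤ[X]) (hA : A ≠ 0) : l1 B ≤ 2 ^ B.natDegree * l1 (A * B) := by
  set c := Int.castRingHom ℂ with hc
  have hinj : Function.Injective c := (Int.castRingHom ℂ).injective_int
  have hnd : (B.map c).natDegree = B.natDegree := natDegree_map_eq_of_injective hinj B
  have hM : (B.map c).mahlerMeasure ≤ (l1 (A * B) : ℝ) := by
    have h1 := mahlerMeasure_mul (A.map c) (B.map c)
    have h2 := one_le_mahlerMeasure_of_ne_zero hA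
    have h3 := mahlerMeasure_nonneg (B.map c)
    have h4 := mahlerMeasure_le_sum_norm_coeff ((A * B).map c)
    rw [l1_eq_complex_sum, Polynomial.map_mul, h1] at h4
    refine le_trans ?_ h4
    nlinarith
  have h5 : (l1 B : ℝ) ≤ 2 ^ B.natDegree * (l1 (A * B) : ℝ) := by
    rw [l1_eq_sum (s := Finset.range (B.natDegree + 1)) (by
      intro i hi
      rw [Finset.mem_range]
      have := le_natDegree_of_mem_supp i hi
      omega)]
    push_cast
    have h6 : ∀ i ∈ Finset.range (B.natDegree + 1), (|B.coeff i| : ℝ) ≤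
        (B.natDegree.choose i : ℝ) * (l1 (A * B) : ℝ) := by
      intro i _
      have h7 := norm_coeff_le_choose_mul_mahlerMeasure i (B.map c)
      rw [hnd, coeff_map, hc, eq_intCast, Complex.norm_intCast] at h7
      refine h7.trans ?_
      exact mul_le_mul_of_nonneg_left hM (Nat.cast_nonneg _)
    calc ∑ i ∈ Finset.range (B.natDegree + 1), ((B.coeff i).natAbs : ℝ)
        = ∑ i ∈ Finset.range (B.natDegree + 1), (|B.coeff i| : ℝ) := by
          apply Finset.sum_congr rfl
          intro i _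
          rw [Nat.cast_natAbs, Int.cast_abs]
      _ ≤ ∑ i ∈ Finset.range (B.natDegree + 1),
            (B.natDegree.choose i : ℝ) * (l1 (A * B) : ℝ) := Finset.sum_le_sum h6
      _ = 2 ^ B.natDegree * (l1 (A * B) : ℝ) := by
          rw [← Finset.sum_mul]
          congr 1
          exact_mod_cast Nat.sum_range_choose B.natDegree
  exact_mod_cast h5

lemma primitive_dvd {G H : ℤ[X]} (hG : G.IsPrimitive) (h : hat G ∣ hat H) : G ∣ H :=
  (IsPrimitive.Int.dvd_iff_map_cast_dvd_map_cast G H hG).mpr h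

/-- Extraction of the greatest common divisor. -/
lemma gcd_extract {ι : Type*} [Fintype ι] (F : ι → ℤ[X]) (i0 : ι) (hi0 : F i0 ≠ 0) :
    ∃ G : ℤ[X], G ≠ 0 ∧
      (∃ F' : ι → ℤ[X], (∀ i, F i = G * F' i) ∧
        Ideal.span (Set.range fun i => hat (F' i)) = ⊤) ∧
      (∀ H : ℤ[X], (∀ g : ℚ[X], (∀ i, g ∣ hat (F i)) → g ∣ hat H) → G ∣ H) := by
  classical
  set I : Ideal ℚ[X] := Ideal.span (Set.range fun i => hat (F i)) with hI
  obtain ⟨g, hg⟩ : ∃ g : ℚ[X], I = Ideal.span {g} := by
    have := (IsPrincipalIdealRing.principal I).principal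
    obtain ⟨g, hg⟩ := this
    exact ⟨g, hg⟩
  have hgdvd : ∀ i, g ∣ hat (F i) := by
    intro i
    rw [← Ideal.mem_span_singleton, ← hg]
    exact Ideal.subset_span ⟨i, rfl⟩
  have hFi0 : hat (F i0) ≠ 0 := (Polynomial.map_ne_zero_iff (Int.castRingHom ℚ).injective_int).mpr hi0
  have hg0 : g ≠ 0 := by
    intro h0
    have := hgdvd i0
    rw [h0, zero_dvd_iff] at this
    exact hFi0 this
  obtain ⟨b, hb, hbg⟩ := IsLocalization.integerNormalization_spec (M := nonZeroDivisors ℤ) (S := ℚ) g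
  set p : ℤ[X] := IsLocalization.integerNormalization (nonZeroDivisors ℤ) g with hp
  have hb0 : b ≠ 0 := nonZeroDivisors.ne_zero hb
  have hpg : hat p = C (b : ℚ) * g := by
    have h1 : hat p = p.map (algebraMap ℤ ℚ) := rfl
    rw [h1, hbg, ← smul_eq_C_mul]
    ext n
    simp
  have hp0 : p ≠ 0 := by
    intro h0
    rw [h0, hat, Polynomial.map_zero] at hpg
    have := mul_ne_zero (C_ne_zero.mpr (by exact_mod_cast hb0 : (b : ℚ) ≠ 0)) hg0
    exact this hpg.symm
  set G := p.primPart with hG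
  have hGprim : G.IsPrimitive := p.isPrimitive_primPart
  have hcont : (p.content : ℚ) ≠ 0 := by
    intro h0
    have : p.content = 0 := by exact_mod_cast h0
    rw [content_eq_zero_iff] at this
    exact hp0 this
  have hpG : hat p = C (p.content : ℚ) * hat G := by
    have h1 : p = C p.content * p.primPart := p.eq_C_content_mul_primPart
    conv_lhs => rw [h1]
    rw [hat, Polynomial.map_mul, map_C]
    rfl
  have hbQ : (b : ℚ) ≠ 0 := by exact_mod_cast hb0
  -- hat G = unit * g
  obtain ⟨u, hu0, hu⟩ : ∃ u : ℚ, u ≠ 0 ∧ hat G = C u * g := by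
    refine ⟨(p.content : ℚ)⁻¹ * b, mul_ne_zero (inv_ne_zero hcont) hbQ, ?_⟩
    have h2 : C (p.content : ℚ) * hat G = C (b : ℚ) * g := by rw [← hpG, hpg]
    calc hat G = C ((p.content : ℚ)⁻¹) * (C (p.content : ℚ) * hat G) := by
          rw [← mul_assoc, ← C_mul, inv_mul_cancel₀ hcont, C_1, one_mul]
      _ = C ((p.content : ℚ)⁻¹) * (C (b : ℚ) * g) := by rw [h2]
      _ = C ((p.content : ℚ)⁻¹ * b) * g := by rw [C_mul, mul_assoc]
  have hGg : ∀ q : ℚ[X], g ∣ q → hat G ∣ q := by
    intro q hq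
    rw [hu]
    have hunit : IsUnit (C u : ℚ[X]) := by
      rw [isUnit_C, isUnit_iff_ne_zero]
      exact hu0
    exact (hunit.mul_left_dvd).mpr hq
  have hGdvd : ∀ i, G ∣ F i := fun i => primitive_dvd hGprim (hGg _ (hgdvd i))
  choose F' hF' using hGdvd
  have hG0 : G ≠ 0 := hGprim.ne_zero
  have hhG0 : hat G ≠ 0 := (Polynomial.map_ne_zero_iff (Int.castRingHom ℚ).injective_int).mpr hG0
  refine ⟨G, hG0, ⟨F', hF', ?_⟩, ?_⟩
  · rw [Ideal.eq_top_iff_one]
    have h3 : hat G ∈ I := by
      rw [hg, Ideal.mem_span_singleton, hu]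
      exact dvd_mul_left _ _
    rw [hI, Ideal.mem_span_range_iff_exists_fun] at h3
    obtain ⟨c, hc⟩ := h3
    rw [Ideal.mem_span_range_iff_exists_fun]
    refine ⟨c, ?_⟩
    apply mul_left_cancel₀ hhG0
    rw [mul_one, Finset.mul_sum]
    refine Eq.trans ?_ hc
    apply Finset.sum_congr rfl
    intro i _
    have h4 : hat (F i) = hat G * hat (F' i) := by
      rw [hF' i]
      exact Polynomial.map_mul _
    rw [h4]
    ring
  · intro H hH
    apply primitive_dvd hGprim
    apply hGg
    exact hH g hgdvd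

end Pool.Agent.Lib.MP_df6954_nt
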