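import Mathlib

set_option autoImplicit false

open Polynomial

namespace Pool.Agent.Lib.MP_df6954_nt

/-- The sum of the absolute values of the coefficients. -/
noncomputable def l1 (p : ℤ[X]) : ℕ := ∑ i ∈ p.support, (p.coeff i).natAbs

lemma l1_eq_sum {p : ℤ[X]} {s : Finset ℕ} (h : p.support ⊆ s) :
    l1 p = ∑ i ∈ s, (p.coeff i).natAbs := by
  unfold l1
  apply Finset.sum_subset h
  intro i _ hi
  simp [Polynomial.notMem_support_iff.mp hi]

@[simp] lemma l1_zero : l1 0 = 0 := by simp [l1]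

lemma l1_add_le (p q : ℤ[X]) : l1 (p + q) ≤ l1 p + l1 q := by
  rw [l1_eq_sum (Polynomial.support_add (p := p) (q := q)),
    l1_eq_sum (p := p) (Finset.subset_union_left (s₂ := q.support)),
    l1_eq_sum (p := q) (Finset.subset_union_right (s₁ := p.support)), ← Finset.sum_add_distrib]
  apply Finset.sum_le_sum
  intro i _
  rw [coeff_add]
  exact Int.natAbs_add_le _ _

lemma l1_neg (p : ℤ[X]) : l1 (-p) = l1 p := by
  simp [l1, support_neg]

lemma l1_sub_le (p q : ℤ[X]) : l1 (p - q) ≤ l1 p + l1 q := by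
  rw [sub_eq_add_neg, ← l1_neg q]
  exact l1_add_le _ _

lemma l1_sum_le {ι : Type*} (s : Finset ι) (f : ι → ℤ[X]) :
    l1 (∑ i ∈ s, f i) ≤ ∑ i ∈ s, l1 (f i) := by
  classical
  induction s using Finset.induction_on with
  | empty => simp
  | insert a s ha ih =>
    rw [Finset.sum_insert ha, Finset.sum_insert ha]
    exact (l1_add_le _ _).trans (Nat.add_le_add_left ih _)

lemma l1_monomial_mul (n : ℕ) (a : ℤ) (q : ℤ[X]) :
    l1 (monomial n a * q) ≤ a.natAbs * l1 q := by
  have hsub : (monomial n a * q).support ⊆ q.support.map (addRightEmbedding n) := by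
    intro i hi
    rw [mem_support_iff] at hi
    rw [Finset.mem_map]
    rw [← C_mul_X_pow_eq_monomial, mul_assoc, coeff_C_mul, coeff_X_pow_mul'] at hi
    split_ifs at hi with hle
    · refine ⟨i - n, ?_, ?_⟩
      · rw [mem_support_iff]
        intro h0
        rw [h0] at hi
        simp at hi
      · simp only [addRightEmbedding_apply]
        omega
    · simp at hi
  rw [l1_eq_sum hsub, Finset.sum_map, l1, Finset.mul_sum]
  apply le_of_eq
  apply Finset.sum_congr rfl
  intro i _
  rw [addRightEmbedding_apply, mul_comm, coeff_mul_monomial, Int.natAbs_mul, mul_comm]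

lemma l1_mul_le (p q : ℤ[X]) : l1 (p * q) ≤ l1 p * l1 q := by
  conv_lhs => rw [p.as_sum_support]
  rw [Finset.sum_mul]
  refine (l1_sum_le _ _).trans ?_
  conv_rhs => rw [l1, Finset.sum_mul]
  apply Finset.sum_le_sum
  intro i _
  exact l1_monomial_mul _ _ _

lemma l1_C (a : ℤ) : l1 (C a) = a.natAbs := by
  rw [l1_eq_sum (s := {0}) (by
    intro i hi
    rw [mem_support_iff, coeff_C] at hi
    by_contra h
    rw [Finset.mem_singleton] at h
    simp [h] at hi)]
  simp

@[simp] lemma l1_one : l1 1 = 1 := by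
  have := l1_C 1
  simpa using this

lemma l1_X : l1 X = 1 := by
  rw [l1, support_X]
  simp

lemma l1_pow_le (p : ℤ[X]) (n : ℕ) : l1 (p ^ n) ≤ l1 p ^ n := by
  induction n with
  | zero => simp
  | succ n ih =>
    rw [pow_succ, pow_succ]
    exact (l1_mul_le _ _).trans (Nat.mul_le_mul_right _ ih)

lemma l1_prod_le {ι : Type*} (s : Finset ι) (f : ι → ℤ[X]) :
    l1 (∏ i ∈ s, f i) ≤ ∏ i ∈ s, l1 (f i) := by
  classical
  induction s using Finset.induction_on with
  | empty => simp
  | insert a s ha ih =>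
    rw [Finset.prod_insert ha, Finset.prod_insert ha]
    exact (l1_mul_le _ _).trans (Nat.mul_le_mul_left _ ih)

lemma l1_X_pow (n : ℕ) : l1 (X ^ n) = 1 := by
  rw [l1, support_X_pow]
  simp

lemma l1_natCast (n : ℕ) : l1 (n : ℤ[X]) = n := by
  have := l1_C (n : ℤ)
  simpa using this

lemma natAbs_coeff_le_l1 (p : ℤ[X]) (i : ℕ) : (p.coeff i).natAbs ≤ l1 p := by
  by_cases h : i ∈ p.support
  · exact Finset.single_le_sum (f := fun i => (p.coeff i).natAbs) (fun _ _ => Nat.zero_le _) h
  · simp [Polynomial.notMem_support_iff.mp h]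

lemma l1_eq_zero {p : ℤ[X]} (h : l1 p = 0) : p = 0 := by
  ext i
  have := natAbs_coeff_le_l1 p i
  rw [h] at this
  simpa using this

lemma one_le_l1 {p : ℤ[X]} (h : p ≠ 0) : 1 ≤ l1 p := by
  rw [Nat.one_le_iff_ne_zero]
  intro h0
  exact h (l1_eq_zero h0)

/-- Bound for the L1 norm of a determinant. -/
lemma l1_det_le {n : Type*} [Fintype n] [DecidableEq n] (A : Matrix n n ℤ[X]) (S : ℕ)
    (hA : ∀ i j, l1 (A i j) ≤ S) :
    l1 A.det ≤ (Fintype.card n).factorial * S ^ (Fintype.card n) := by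
  rw [Matrix.det_apply]
  refine (l1_sum_le _ _).trans ?_
  have : ∀ σ ∈ (Finset.univ : Finset (Equiv.Perm n)),
      l1 (Equiv.Perm.sign σ • ∏ i, A (σ i) i) ≤ S ^ (Fintype.card n) := by
    intro σ _
    have h1 : l1 (Equiv.Perm.sign σ • ∏ i, A (σ i) i) = l1 (∏ i, A (σ i) i) := by
      rcases Int.units_eq_one_or (Equiv.Perm.sign σ) with h | h
      · rw [h, one_smul]
      · rw [h]
        have : ((-1 : ℤˣ) • ∏ i, A (σ i) i) = - ∏ i, A (σ i) i := by
          rw [Units.neg_smul, one_smul]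
        rw [this, l1_neg]
    rw [h1]
    refine (l1_prod_le _ _).trans ?_
    calc ∏ i, l1 (A (σ i) i) ≤ ∏ _i : n, S :=
          Finset.prod_le_prod (fun _ _ => Nat.zero_le _) (fun i _ => hA _ _)
      _ = S ^ (Fintype.card n) := by simp
  refine (Finset.sum_le_sum this).trans ?_
  simp [Fintype.card_perm]

/-- Bound for the degree of a determinant. -/
lemma natDegree_det_le {n : Type*} [Fintype n] [DecidableEq n] (A : Matrix n n ℤ[X]) (d : ℕ)
    (hA : ∀ i j, (A i j).natDegree ≤ d) :
    A.det.natDegree ≤ (Fintype.card n) * d := by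
  rw [Matrix.det_apply]
  apply Polynomial.natDegree_sum_le_of_forall_le
  intro σ _
  have h1 : (Equiv.Perm.sign σ • ∏ i, A (σ i) i).natDegree ≤ (∏ i, A (σ i) i).natDegree := by
    rcases Int.units_eq_one_or (Equiv.Perm.sign σ) with h | h
    · rw [h, one_smul]
    · rw [h]
      have : ((-1 : ℤˣ) • ∏ i, A (σ i) i) = - ∏ i, A (σ i) i := by
        rw [Units.neg_smul, one_smul]
      rw [this, natDegree_neg]
  refine h1.trans ((natDegree_prod_le _ _).trans ?_)
  calc ∑ i, (A (σ i) i).natDegree ≤ ∑ _i : n, d := Finset.sum_le_sum (fun i _ => hA _ _)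
    _ = Fintype.card n * d := by simp

/-- Bound for an integer determinant by the product of the L1 norms of its rows. -/
lemma natAbs_det_le_prod {n : Type*} [Fintype n] [DecidableEq n] (A : Matrix n n ℤ) :
    A.det.natAbs ≤ ∏ i, ∑ j, (A i j).natAbs := by
  have h1 : A.det.natAbs ≤ ∑ σ : Equiv.Perm n, ∏ i, (A i (σ i)).natAbs := by
    rw [← Matrix.det_transpose, Matrix.det_apply]
    refine (Int.natAbs_sum_le _ _).trans ?_
    apply Finset.sum_le_sum
    intro σ _
    rw [Units.smul_def, smul_eq_mul, Int.natAbs_mul]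
    rw [Int.natAbs_of_isUnit (Units.isUnit _), one_mul]
    have h2 := map_prod Int.natAbsHom (fun i => A.transpose (σ i) i) Finset.univ
    simp only [Int.natAbsHom] at h2
    change Int.natAbs _ = _ at h2
    rw [h2]
    rfl
  refine h1.trans ?_
  rw [Finset.prod_univ_sum, Fintype.piFinset_univ]
  let F : Equiv.Perm n → (n → n) := fun σ => σ
  have hF : Function.Injective F := fun σ τ h => by
    ext i
    exact congrFun h i
  calc ∑ σ : Equiv.Perm n, ∏ i, (A i (σ i)).natAbs
      = ∑ f ∈ Finset.univ.map ⟨F, hF⟩, ∏ i, (A i (f i)).natAbs := by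
        rw [Finset.sum_map]
        rfl
    _ ≤ ∑ f : n → n, ∏ i, (A i (f i)).natAbs :=
        Finset.sum_le_sum_of_subset (Finset.subset_univ _)

end Pool.Agent.Lib.MP_df6954_nt
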