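import Pool.Agent.Lib.MP_df6954_nt.L1

set_option autoImplicit false

open Polynomial

namespace Pool.Agent.Lib.MP_df6954_nt

lemma sum_range_le_l1 (p : ℤ[X]) (n : ℕ) : ∑ j : Fin n, (p.coeff j).natAbs ≤ l1 p := by
  rw [Fin.sum_univ_eq_sum_range (fun j => (p.coeff j).natAbs) n,
    l1_eq_sum (s := p.support ∪ Finset.range n) Finset.subset_union_left]
  exact Finset.sum_le_sum_of_subset Finset.subset_union_right

/-- The additive image of the polynomials of degree less than `n`. -/
noncomputable def imgLT {A : Type*} [AddCommGroup A] (φ : ℤ[X] →+ A) (n : ℕ) : AddSubgroup A :=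
  (degreeLT ℤ n).toAddSubgroup.map φ

/-- the additive hom on coordinate vectors -/
noncomputable def vecHom {A : Type*} [AddCommGroup A] (φ : ℤ[X] →+ A) (n : ℕ) :
    (Fin n → ℤ) →+ A :=
  φ.comp ((degreeLT ℤ n).subtype.comp (degreeLTEquiv ℤ n).symm.toLinearMap).toAddMonoidHom

lemma vecHom_range {A : Type*} [AddCommGroup A] (φ : ℤ[X] →+ A) (n : ℕ) :
    (vecHom φ n).range = imgLT φ n := by
  ext a
  constructor
  · rintro ⟨v, rfl⟩
    refine ⟨((degreeLTEquiv ℤ n).symm v : ℤ[X]), ?_, rfl⟩
    exact ((degreeLTEquiv ℤ n).symm v).2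
  · rintro ⟨p, hp, rfl⟩
    refine ⟨degreeLTEquiv ℤ n ⟨p, hp⟩, ?_⟩
    simp [vecHom]

lemma vecHom_coeff {A : Type*} [AddCommGroup A] (φ : ℤ[X] →+ A) (n : ℕ) (p : ℤ[X])
    (hp : p ∈ degreeLT ℤ n) : vecHom φ n (fun j => p.coeff j) = φ p := by
  have : (fun j : Fin n => p.coeff j) = degreeLTEquiv ℤ n ⟨p, hp⟩ := by
    ext j
    rfl
  rw [this]
  simp [vecHom]

/-- If `n` polynomials of degree `< n` killed by `φ` have nonzero coefficient determinant, then the
image of the polynomials of degree `< n` is finite of cardinality at most that determinant. -/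
lemma card_imgLT_le_det {A : Type*} [AddCommGroup A] (φ : ℤ[X] →+ A) (n : ℕ)
    (v : Fin n → ℤ[X]) (hv : ∀ i, v i ∈ degreeLT ℤ n) (hφ : ∀ i, φ (v i) = 0)
    (hdet : (Matrix.of fun i j : Fin n => (v i).coeff j).det ≠ 0) :
    Nat.card (imgLT φ n) ≤ (Matrix.of fun i j : Fin n => (v i).coeff j).det.natAbs := by
  classical
  set V : Matrix (Fin n) (Fin n) ℤ := Matrix.of fun i j : Fin n => (v i).coeff j with hV
  have hli : LinearIndependent ℤ V.row := Matrix.linearIndependent_rows_of_det_ne_zero hdet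
  set N : Submodule ℤ (Fin n → ℤ) := Submodule.span ℤ (Set.range V.row) with hN
  let bN : Module.Basis (Fin n) ℤ N := Module.Basis.span hli
  have h1 := Submodule.natAbs_det_basis_change (Pi.basisFun ℤ (Fin n)) N bN
  have h2 : ((Pi.basisFun ℤ (Fin n)).det ((↑) ∘ bN)).natAbs = V.det.natAbs := by
    rw [Pi.basisFun_det]
    congr 1
    have : ((↑) ∘ bN : Fin n → (Fin n → ℤ)) = V.row := by
      ext i j
      exact congrFun (congrArg Subtype.val (Module.Basis.span_apply hli i)) j
    rw [this]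
    rfl
  rw [h2] at h1
  have h3 : Nat.card ((Fin n → ℤ) ⧸ N) = N.toAddSubgroup.index := rfl
  rw [h3] at h1
  have hle : N.toAddSubgroup ≤ (vecHom φ n).ker := by
    intro x hx
    have hx' : x ∈ N := hx
    have : N ≤ AddSubgroup.toIntSubmodule (vecHom φ n).ker := by
      rw [hN, Submodule.span_le]
      rintro _ ⟨i, rfl⟩
      change V.row i ∈ (vecHom φ n).ker
      rw [AddMonoidHom.mem_ker]
      have : V.row i = fun j : Fin n => (v i).coeff j := rfl
      rw [this, vecHom_coeff φ n (v i) (hv i), hφ i]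
    exact this hx'
  have h4 := AddSubgroup.index_dvd_of_le hle
  rw [AddSubgroup.index_ker, vecHom_range, ← h1] at h4
  exact Nat.le_of_dvd (Int.natAbs_pos.mpr hdet) h4

section Select

variable {ι : Type*} [Fintype ι]

/-- the vectors -/
noncomputable def wfam (F1 : ℤ[X]) (F : ι → ℤ[X]) (D d : ℕ) :
    Fin D ⊕ (ι × Fin d) → ℤ[X]
  | Sum.inl j => X ^ (j : ℕ) * F1
  | Sum.inr p => X ^ (p.2 : ℕ) * F p.1

lemma mul_mem_span_of_degree_lt {U : Submodule ℚ ℚ[X]} {D : ℕ} {G : ℚ[X]}
    (h : ∀ j : Fin D, X ^ (j : ℕ) * G ∈ U) {c : ℚ[X]} (hc : c.degree < D) :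
    c * G ∈ U := by
  by_cases hc0 : c = 0
  · rw [hc0, zero_mul]
    exact U.zero_mem
  have hnd : c.natDegree < D := (natDegree_lt_iff_degree_lt hc0).mpr hc
  rw [as_sum_range' c D hnd, Finset.sum_mul]
  apply Submodule.sum_mem
  intro i hi
  rw [Finset.mem_range] at hi
  rw [← C_mul_X_pow_eq_monomial, mul_assoc, ← smul_eq_C_mul]
  exact U.smul_mem _ (h ⟨i, hi⟩)

/-- the rational family -/
noncomputable def pfam (F1 : ℤ[X]) (F : ι → ℤ[X]) (D d : ℕ) :
    Fin D ⊕ (ι × Fin d) → ℚ[X] :=
  fun k => (wfam F1 F D d k).map (Int.castRingHom ℚ)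

lemma degreeLT_le_span_pfam (F1 : ℤ[X]) (F : ι → ℤ[X]) (D d : ℕ) (hF1 : F1 ≠ 0)
    (hd : F1.natDegree = d) (hF : ∀ e, (F e).natDegree ≤ D)
    (htop : Ideal.span (insert (F1.map (Int.castRingHom ℚ))
      (Set.range fun e => (F e).map (Int.castRingHom ℚ))) = ⊤) :
    degreeLT ℚ (D + d) ≤ Submodule.span ℚ (Set.range (pfam F1 F D d)) := by
  classical
  set U := Submodule.span ℚ (Set.range (pfam F1 F D d)) with hU
  have hA : ∀ j : Fin D, X ^ (j : ℕ) * F1.map (Int.castRingHom ℚ) ∈ U := by
    intro j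
    apply Submodule.subset_span
    exact ⟨Sum.inl j, by simp [pfam, wfam]⟩
  have hB : ∀ e, ∀ i : Fin d, X ^ (i : ℕ) * (F e).map (Int.castRingHom ℚ) ∈ U := by
    intro e i
    apply Submodule.subset_span
    exact ⟨Sum.inr (e, i), by simp [pfam, wfam]⟩
  intro H hH
  rw [mem_degreeLT] at hH
  have hone : (1 : ℚ[X]) ∈ Ideal.span (insert (F1.map (Int.castRingHom ℚ))
      (Set.range fun e => (F e).map (Int.castRingHom ℚ))) := by
    rw [htop]; trivial
  rw [Ideal.mem_span_insert] at hone
  obtain ⟨a, z, hz, h1⟩ := hone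
  have hz' := (Ideal.mem_span_range_iff_exists_fun (R := ℚ[X])).mp hz
  obtain ⟨c, hc⟩ := hz'
  set P1 : ℚ[X] := F1.map (Int.castRingHom ℚ) with hP1
  have hP1ne : P1 ≠ 0 := by
    rw [hP1]
    exact (Polynomial.map_ne_zero_iff (Int.castRingHom ℚ).injective_int).mpr hF1
  have hP1deg : P1.degree = d := by
    rw [degree_eq_natDegree hP1ne, hP1, natDegree_map_eq_of_injective (Int.castRingHom ℚ).injective_int, hd]
  -- reduce the coefficients
  set r : ι → ℚ[X] := fun e => (H * c e) % P1 with hr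
  set q : ι → ℚ[X] := fun e => (H * c e) / P1 with hq
  have hdm : ∀ e, H * c e = P1 * q e + r e := fun e => (EuclideanDomain.div_add_mod _ _).symm
  have hrdeg : ∀ e, (r e).degree < d := by
    intro e
    rw [← hP1deg]
    exact EuclideanDomain.mod_lt _ hP1ne
  set C1 : ℚ[X] := H * a + ∑ e, q e * (F e).map (Int.castRingHom ℚ) with hC1
  have hdecomp : H = C1 * P1 + ∑ e, r e * (F e).map (Int.castRingHom ℚ) := by
    have e1 : H = H * (a * P1 + z) := by rw [← h1, mul_one]
    rw [← hc, mul_add, Finset.mul_sum] at e1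
    calc H = H * (a * P1) + ∑ i, H * (c i * (F i).map (Int.castRingHom ℚ)) := e1
      _ = H * (a * P1) + ∑ i, (q i * (F i).map (Int.castRingHom ℚ) * P1
            + r i * (F i).map (Int.castRingHom ℚ)) := by
          congr 1
          apply Finset.sum_congr rfl
          intro i _
          rw [← mul_assoc, hdm i]
          ring
      _ = C1 * P1 + ∑ e, r e * (F e).map (Int.castRingHom ℚ) := by
          rw [Finset.sum_add_distrib, hC1, add_mul, Finset.sum_mul]
          ring
  have hsumdeg : (∑ e, r e * (F e).map (Int.castRingHom ℚ)).degree < (D + d : ℕ) := by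
    refine lt_of_le_of_lt (degree_sum_le _ _) ?_
    rw [Finset.sup_lt_iff (WithBot.bot_lt_coe _)]
    intro e _
    rw [degree_mul]
    by_cases hFe : (F e).map (Int.castRingHom ℚ) = 0
    · rw [hFe, degree_zero, WithBot.add_bot]
      exact WithBot.bot_lt_coe _
    · by_cases hre : r e = 0
      · rw [hre, degree_zero, WithBot.bot_add]
        exact WithBot.bot_lt_coe _
      · have h2 := hrdeg e
        rw [degree_eq_natDegree hre] at h2 ⊢
        rw [degree_eq_natDegree hFe]
        have h3 : ((F e).map (Int.castRingHom ℚ)).natDegree ≤ D :=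
          natDegree_map_le.trans (hF e)
        have h4 : (r e).natDegree < d := by exact_mod_cast h2
        have : (r e).natDegree + ((F e).map (Int.castRingHom ℚ)).natDegree < D + d := by omega
        exact_mod_cast this
  have hC1P1 : (C1 * P1).degree < (D + d : ℕ) := by
    have : C1 * P1 = H - ∑ e, r e * (F e).map (Int.castRingHom ℚ) := by
      rw [eq_sub_iff_add_eq]
      exact hdecomp.symm
    rw [this]
    exact lt_of_le_of_lt (degree_sub_le _ _) (max_lt hH hsumdeg)
  have hC1deg : C1.degree < D := by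
    by_cases hC0 : C1 = 0
    · rw [hC0, degree_zero]
      exact WithBot.bot_lt_coe _
    · rw [degree_mul, hP1deg, degree_eq_natDegree hC0] at hC1P1
      rw [degree_eq_natDegree hC0]
      have h5 : C1.natDegree + d < D + d := by exact_mod_cast hC1P1
      have h6 : C1.natDegree < D := by omega
      exact_mod_cast h6
  rw [hdecomp]
  apply U.add_mem
  · exact mul_mem_span_of_degree_lt hA hC1deg
  · apply Submodule.sum_mem
    intro e _
    exact mul_mem_span_of_degree_lt (hB e) (hrdeg e)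

omit [Fintype ι] in
lemma wfam_mem_degreeLT (F1 : ℤ[X]) (F : ι → ℤ[X]) (D d : ℕ)
    (hd : F1.natDegree = d) (hF : ∀ e, (F e).natDegree ≤ D) (k : Fin D ⊕ (ι × Fin d)) :
    wfam F1 F D d k ∈ degreeLT ℤ (D + d) := by
  rw [mem_degreeLT]
  rcases k with j | ⟨e, i⟩
  · simp only [wfam]
    by_cases h : X ^ (j : ℕ) * F1 = 0
    · rw [h, degree_zero]
      exact WithBot.bot_lt_coe _
    · rw [← natDegree_lt_iff_degree_lt h]
      have := natDegree_mul_le (p := X ^ (j : ℕ)) (q := F1)
      rw [natDegree_X_pow, hd] at this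
      have := j.2
      omega
  · simp only [wfam]
    by_cases h : X ^ (i : ℕ) * F e = 0
    · rw [h, degree_zero]
      exact WithBot.bot_lt_coe _
    · rw [← natDegree_lt_iff_degree_lt h]
      have := natDegree_mul_le (p := X ^ (i : ℕ)) (q := F e)
      rw [natDegree_X_pow] at this
      have := hF e
      have := i.2
      omega

omit [Fintype ι] in
lemma linearIndepOn_pfam_inl (F1 : ℤ[X]) (F : ι → ℤ[X]) (D d : ℕ) (hF1 : F1 ≠ 0) :
    LinearIndepOn ℚ (pfam F1 F D d) (Set.range Sum.inl) := by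
  rw [linearIndepOn_range_iff Sum.inl_injective]
  have h1 : pfam F1 F D d ∘ Sum.inl =
      (LinearMap.mulRight ℚ (F1.map (Int.castRingHom ℚ))) ∘ (fun j : Fin D => (X : ℚ[X]) ^ (j : ℕ)) := by
    ext j
    simp [pfam, wfam]
  rw [h1]
  apply LinearIndependent.map'
  · have h2 := (Polynomial.basisMonomials ℚ).linearIndependent
    have h3 : (fun j : Fin D => (X : ℚ[X]) ^ (j : ℕ)) =
        (Polynomial.basisMonomials ℚ) ∘ (fun j : Fin D => (j : ℕ)) := by
      ext j
      simp [Polynomial.coe_basisMonomials, X_pow_eq_monomial]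
    rw [h3]
    exact h2.comp _ Fin.val_injective
  · rw [LinearMap.ker_eq_bot]
    intro x y hxy
    simp only [LinearMap.mulRight_apply] at hxy
    have hne : F1.map (Int.castRingHom ℚ) ≠ 0 :=
      (Polynomial.map_ne_zero_iff (Int.castRingHom ℚ).injective_int).mpr hF1
    exact mul_right_cancel₀ hne hxy

/-- Lattice lemma. -/
theorem card_imgLT_le {A : Type*} [AddCommGroup A] (φ : ℤ[X] →+ A) (F1 : ℤ[X]) (F : ι → ℤ[X])
    (D d : ℕ) (hF1 : F1 ≠ 0) (hd : F1.natDegree = d) (hF : ∀ e, (F e).natDegree ≤ D)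
    (htop : Ideal.span (insert (F1.map (Int.castRingHom ℚ))
      (Set.range fun e => (F e).map (Int.castRingHom ℚ))) = ⊤)
    (h1 : ∀ j : ℕ, φ (X ^ j * F1) = 0) (h2 : ∀ e, ∀ i : ℕ, φ (X ^ i * F e) = 0)
    (H1 H : ℕ) (hH1 : l1 F1 ≤ H1) (hH : ∀ e, l1 (F e) ≤ H) :
    Nat.card (imgLT φ (D + d)) ≤ H1 ^ D * H ^ d := by
  classical
  obtain ⟨b, -, hsb, hspan, hli⟩ := exists_linearIndepOn_extension
    (linearIndepOn_pfam_inl F1 F D d hF1) (Set.subset_univ _)
  have hmem : ∀ k, pfam F1 F D d k ∈ degreeLT ℚ (D + d) := by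
    intro k
    have := wfam_mem_degreeLT F1 F D d hd hF k
    rw [mem_degreeLT] at this ⊢
    exact lt_of_le_of_lt (degree_map_le) this
  -- the span of b is everything of degree < D + d
  have hspan' : Submodule.span ℚ (pfam F1 F D d '' b) = degreeLT ℚ (D + d) := by
    apply le_antisymm
    · rw [Submodule.span_le]
      rintro _ ⟨k, -, rfl⟩
      exact hmem k
    · refine (degreeLT_le_span_pfam F1 F D d hF1 hd hF htop).trans ?_
      rw [Submodule.span_le, ← Set.image_univ]
      exact hspan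
  have : Fintype b := Fintype.ofFinite b
  have hcard : Fintype.card b = D + d := by
    have hli' : LinearIndependent ℚ (fun k : b => pfam F1 F D d k) := hli
    have h3 := finrank_span_eq_card hli'
    have h4 : Set.range (fun k : b => pfam F1 F D d k) = pfam F1 F D d '' b := by
      ext x
      simp
    rw [h4, hspan'] at h3
    rw [← h3]
    have h5 := (degreeLTEquiv ℚ (D + d)).finrank_eq
    rw [h5]
    simp
  let σ : Fin (D + d) ≃ b := (Fintype.equivFinOfCardEq hcard).symm
  let v : Fin (D + d) → ℤ[X] := fun i => wfam F1 F D d (σ i)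
  have hvmem : ∀ i, v i ∈ degreeLT ℤ (D + d) := fun i => wfam_mem_degreeLT F1 F D d hd hF _
  have hvφ : ∀ i, φ (v i) = 0 := by
    intro i
    change φ (wfam F1 F D d (σ i)) = 0
    rcases ((σ i : b) : Fin D ⊕ (ι × Fin d)) with j | ⟨e, i'⟩
    · exact h1 _
    · exact h2 _ _
  have hdet : (Matrix.of fun i j : Fin (D + d) => (v i).coeff j).det ≠ 0 := by
    intro h0
    have h6 : ((Matrix.of fun i j : Fin (D + d) => (v i).coeff j).map (Int.castRingHom ℚ)).det = 0 := by
      rw [← RingHom.mapMatrix_apply, ← RingHom.map_det, h0, map_zero]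
    have h7 : IsUnit ((Matrix.of fun i j : Fin (D + d) => (v i).coeff j).map (Int.castRingHom ℚ)) := by
      rw [← Matrix.linearIndependent_rows_iff_isUnit]
      have h8 : ((Matrix.of fun i j : Fin (D + d) => (v i).coeff j).map (Int.castRingHom ℚ)).row =
          (degreeLTEquiv ℚ (D + d)) ∘ (fun i : Fin (D + d) =>
            (⟨pfam F1 F D d (σ i), hmem _⟩ : degreeLT ℚ (D + d))) := by
        ext i j
        change (Int.castRingHom ℚ) ((v i).coeff j) = (pfam F1 F D d (σ i)).coeff j
        simp [v, pfam]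
      rw [h8]
      apply LinearIndependent.map'
      · have h9 : LinearIndependent ℚ (fun k : b => pfam F1 F D d k) := hli
        have h10 := h9.comp σ σ.injective
        rw [← LinearMap.linearIndependent_iff (degreeLT ℚ (D + d)).subtype (Submodule.ker_subtype _)]
        exact h10
      · exact LinearEquiv.ker _
    rw [Matrix.isUnit_iff_isUnit_det, h6] at h7
    simp at h7
  refine (card_imgLT_le_det φ (D + d) v hvmem hvφ hdet).trans ?_
  refine (natAbs_det_le_prod _).trans ?_
  have h11 : ∀ i, ∑ j, ((Matrix.of fun i j : Fin (D + d) => (v i).coeff j) i j).natAbs ≤ l1 (v i) := by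
    intro i
    exact sum_range_le_l1 (v i) (D + d)
  refine (Finset.prod_le_prod (fun _ _ => Nat.zero_le _) (fun i _ => h11 i)).trans ?_
  have h12 : ∏ i, l1 (v i) = ∏ k ∈ b.toFinset, l1 (wfam F1 F D d k) := by
    rw [← Finset.prod_coe_sort b.toFinset (fun k => l1 (wfam F1 F D d k))]
    let τ : Fin (D + d) ≃ b.toFinset := σ.trans (Equiv.subtypeEquivRight (fun x => by simp))
    exact Fintype.prod_equiv τ _ _ (fun i => rfl)
  rw [h12]
  set I : Finset (Fin D ⊕ (ι × Fin d)) := Finset.univ.map ⟨Sum.inl, Sum.inl_injective⟩ with hI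
  have hIb : I ⊆ b.toFinset := by
    intro x hx
    rw [hI, Finset.mem_map] at hx
    obtain ⟨j, -, rfl⟩ := hx
    rw [Set.mem_toFinset]
    exact hsb ⟨j, rfl⟩
  rw [← Finset.prod_sdiff hIb, mul_comm]
  have hX : ∀ (j : ℕ) (p : ℤ[X]), l1 (X ^ j * p) ≤ l1 p := by
    intro j p
    have := l1_mul_le (X ^ j) p
    rwa [l1_X_pow, one_mul] at this
  apply Nat.mul_le_mul
  · rw [hI, Finset.prod_map]
    calc ∏ j : Fin D, l1 (wfam F1 F D d (Sum.inl j)) ≤ ∏ _j : Fin D, H1 :=
          Finset.prod_le_prod (fun _ _ => Nat.zero_le _) (fun j _ => (hX _ _).trans hH1)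
      _ = H1 ^ D := by simp
  · have hcI : I.card = D := by simp [hI]
    have hcb : b.toFinset.card = D + d := by rw [Set.toFinset_card]; convert hcard
    have hcs : (b.toFinset \ I).card = d := by
      rw [Finset.card_sdiff_of_subset hIb, hcI, hcb]
      omega
    calc ∏ k ∈ b.toFinset \ I, l1 (wfam F1 F D d k) ≤ ∏ _k ∈ b.toFinset \ I, H := by
          apply Finset.prod_le_prod (fun _ _ => Nat.zero_le _)
          intro k hk
          rw [Finset.mem_sdiff] at hk
          rcases k with j | ⟨e, i⟩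
          · exact absurd (by simp [hI]) hk.2
          · exact (hX _ _).trans (hH e)
      _ = H ^ d := by rw [Finset.prod_const, hcs]

end Select

end Pool.Agent.Lib.MP_df6954_nt
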