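import Pool.Agent.Lib.MP_df6954_nt.Span

set_option autoImplicit false

open Polynomial

namespace Pool.Agent.Lib.MP_df6954_nt

variable {R : Type*} [CommRing R]

/-- Taylor shift: `p ↦ p (τ + X)`. -/
noncomputable def psi (τ : R) : ℤ[X] →+* R[X] :=
  (aeval (X + C τ : R[X]) : ℤ[X] →ₐ[ℤ] R[X]).toRingHom

lemma psi_apply (τ : R) (p : ℤ[X]) : psi τ p = aeval (X + C τ : R[X]) p := rfl

@[simp] lemma psi_X (τ : R) : psi τ X = X + C τ := by
  rw [psi_apply, aeval_X]

/-- The ideal of polynomials whose Taylor expansion at `τ` is divisible by `X ^ j`. -/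
noncomputable def Jid (τ : R) (j : ℕ) : Ideal ℤ[X] := Ideal.comap (psi τ) (Ideal.span {X ^ j})

lemma mem_Jid {τ : R} {j : ℕ} {p : ℤ[X]} : p ∈ Jid τ j ↔ X ^ j ∣ psi τ p := by
  rw [Jid, Ideal.mem_comap, Ideal.mem_span_singleton]

lemma psi_coeff_zero (τ : R) (p : ℤ[X]) : (psi τ p).coeff 0 = aeval τ p := by
  rw [coeff_zero_eq_eval_zero, psi_apply]
  have h := Polynomial.hom_eval₂ p (algebraMap ℤ R[X]) (evalRingHom (0 : R)) (X + C τ)
  rw [coe_evalRingHom] at h
  have h1 : aeval (X + C τ : R[X]) p = eval₂ (algebraMap ℤ R[X]) (X + C τ) p := rfl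
  have h2 : aeval τ p = eval₂ (algebraMap ℤ R) τ p := rfl
  rw [h1, h2, h]
  congr 1
  · exact RingHom.ext_int _ _
  · simp

/-- the coefficient of `X ^ j` in the Taylor expansion -/
noncomputable def cof (τ : R) (j : ℕ) : ℤ[X] →+ R :=
  (Polynomial.lcoeff R j).toAddMonoidHom.comp (psi τ).toAddMonoidHom

lemma cof_apply (τ : R) (j : ℕ) (p : ℤ[X]) : cof τ j p = (psi τ p).coeff j := rfl

lemma Jid_anti (τ : R) (j : ℕ) : Jid τ (j + 1) ≤ Jid τ j := by
  intro p hp
  rw [mem_Jid] at hp ⊢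
  exact (pow_dvd_pow X (Nat.le_succ j)).trans hp

lemma Jid_finite [Finite R] (τ : R) (m : ℕ) : Finite (ℤ[X] ⧸ Jid τ m) := by
  let g : ℤ[X] →+ (Fin m → R) := AddMonoidHom.mk' (fun p j => cof τ j p) (by
    intro a b
    ext j
    simp)
  have hker : g.ker = (Jid τ m).toAddSubgroup := by
    ext p
    rw [AddMonoidHom.mem_ker]
    change _ ↔ p ∈ Jid τ m
    rw [mem_Jid, X_pow_dvd_iff]
    constructor
    · intro h d hd
      exact congrFun h ⟨d, hd⟩
    · intro h
      ext j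
      exact h j j.2
  have h1 : (Jid τ m).toAddSubgroup.index ≠ 0 := by
    rw [← hker, AddSubgroup.index_ker]
    exact Nat.card_pos.ne'
  have h2 : Nat.card (ℤ[X] ⧸ Jid τ m) ≠ 0 := h1
  exact Nat.finite_of_card_ne_zero h2

lemma psi_sub_one_pow (τ : R) (N : ℕ) (hτ : τ ^ N = 1) :
    ∃ g : R[X], psi τ (X ^ N - 1) = X * g ∧ g.coeff 0 = N * τ ^ (N - 1) := by
  have h0 : (psi τ (X ^ N - 1)).coeff 0 = 0 := by
    rw [psi_coeff_zero]
    simp [hτ]
  have hd : X ∣ psi τ (X ^ N - 1) := X_dvd_iff.mpr h0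
  obtain ⟨g, hg⟩ := hd
  refine ⟨g, hg, ?_⟩
  have h1 : (psi τ (X ^ N - 1)).coeff 1 = g.coeff 0 := by
    rw [hg, coeff_X_mul]
  rw [← h1, map_sub, map_pow, psi_X, map_one, coeff_sub, coeff_X_add_C_pow, coeff_one]
  simp [mul_comm]

/-- One step of the lower bound. -/
lemma card_step [Finite R] (τ : R) (N : ℕ) (hN : 1 ≤ N) (hτ : τ ^ N = 1)
    (hsurj : ∀ r : R, ∃ p : ℤ[X], aeval τ p = r) (j : ℕ) :
    Nat.card R * Nat.card (ℤ[X] ⧸ Jid τ j) ≤
      Nat.card (ℤ[X] ⧸ Jid τ (j + 1)) * N ^ (N * j) := by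
  -- the multiplication by `N ^ j`
  set S : AddSubgroup R := (AddMonoidHom.mulLeft ((N : R) ^ j)).range with hS
  -- index bound
  have hindex : S.index ≤ N ^ (N * j) := by
    let φ : ℤ[X] →+ R ⧸ S :=
      (QuotientAddGroup.mk' S).comp (aeval τ : ℤ[X] →ₐ[ℤ] R).toRingHom.toAddMonoidHom
    have hφ : ∀ p, φ p = QuotientAddGroup.mk' S (aeval τ p) := fun _ => rfl
    have hφ1 : ∀ q : ℤ[X], φ ((X ^ N - 1) * q) = 0 := by
      intro q
      rw [hφ, map_mul]
      simp [hτ]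
    have hmon : (X ^ N - 1 : ℤ[X]).Monic := by
      have := monic_X_pow_sub_C (1 : ℤ) (n := N) (by omega)
      simpa using this
    have hdeg : (X ^ N - 1 : ℤ[X]).natDegree = N := by
      have := natDegree_X_pow_sub_C (R := ℤ) (n := N) (r := 1)
      simpa using this
    have hcN : ((N : ℤ) ^ j) ≠ 0 := pow_ne_zero _ (by exact_mod_cast (by omega : N ≠ 0))
    have hL := card_imgLT_le (ι := Empty) φ (C ((N : ℤ) ^ j)) (fun e => e.elim) N 0
      (C_ne_zero.mpr hcN) (natDegree_C ((N : ℤ) ^ j)) (fun e => e.elim)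
      (by
        rw [Ideal.eq_top_iff_one]
        have h1 : (C (((N : ℚ) ^ j)⁻¹) : ℚ[X]) * ((C ((N : ℤ) ^ j) : ℤ[X]).map (Int.castRingHom ℚ)) = 1 := by
          rw [map_C, ← C_mul]
          have : ((Int.castRingHom ℚ) ((N : ℤ) ^ j)) = (N : ℚ) ^ j := by simp
          rw [this, inv_mul_cancel₀, C_1]
          have := hcN
          exact_mod_cast this
        rw [← h1]
        exact Ideal.mul_mem_left _ _ (Ideal.subset_span (Set.mem_insert _ _)))
      (by
        intro i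
        rw [hφ, map_mul]
        rw [QuotientAddGroup.mk'_apply, QuotientAddGroup.eq_zero_iff]
        refine ⟨aeval τ (X ^ i : ℤ[X]), ?_⟩
        simp [mul_comm])
      (fun e => e.elim) (N ^ j) 1 (by rw [l1_C]; simp [Int.natAbs_pow]) (fun e => e.elim)
    rw [Nat.add_zero, imgLT_eq_range φ _ hmon hφ1 hdeg.le] at hL
    have hsurjφ : φ.range = ⊤ := by
      rw [AddMonoidHom.range_eq_top]
      intro x
      obtain ⟨r, rfl⟩ := QuotientAddGroup.mk'_surjective S x
      obtain ⟨p, rfl⟩ := hsurj r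
      exact ⟨p, rfl⟩
    rw [hsurjφ, AddSubgroup.card_top] at hL
    have h3 : S.index = Nat.card (R ⧸ S) := rfl
    rw [h3]
    refine hL.trans ?_
    rw [one_pow, mul_one, ← pow_mul, mul_comm j N]
  have hcardR : Nat.card R ≤ Nat.card S * N ^ (N * j) := by
    rw [← AddSubgroup.card_mul_index S]
    exact Nat.mul_le_mul_left _ hindex
  -- the relative index
  set K := (Jid τ j).toAddSubgroup with hK
  set K' := (Jid τ (j + 1)).toAddSubgroup with hK'
  have hKK' : K' ≤ K := Jid_anti τ j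
  have hrel : Nat.card S ≤ K'.relIndex K := by
    have hker : K'.addSubgroupOf K = ((cof τ j).comp K.subtype).ker := by
      ext ⟨p, hp⟩
      rw [AddSubgroup.mem_addSubgroupOf, AddMonoidHom.mem_ker]
      change p ∈ Jid τ (j + 1) ↔ (psi τ p).coeff j = 0
      have hp' : p ∈ Jid τ j := hp
      rw [mem_Jid, X_pow_dvd_iff] at hp' ⊢
      constructor
      · intro h
        exact h j (Nat.lt_succ_self j)
      · intro h d hd
        rcases Nat.lt_succ_iff_lt_or_eq.mp hd with h1 | h1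
        · exact hp' d h1
        · rw [h1]; exact h
    rw [AddSubgroup.relIndex, hker, AddSubgroup.index_ker]
    have hle : S ≤ ((cof τ j).comp K.subtype).range := by
      rintro _ ⟨r, rfl⟩
      obtain ⟨H, hH⟩ := hsurj (τ ^ j * r)
      obtain ⟨g, hg, hg0⟩ := psi_sub_one_pow τ N hτ
      have hpsi : psi τ ((X ^ N - 1) ^ j * H) = X ^ j * (g ^ j * psi τ H) := by
        rw [map_mul, map_pow, hg, mul_pow, mul_assoc]
      have hmem : (X ^ N - 1) ^ j * H ∈ Jid τ j := by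
        rw [mem_Jid, hpsi]
        exact dvd_mul_right _ _
      refine ⟨⟨(X ^ N - 1) ^ j * H, hmem⟩, ?_⟩
      change (psi τ ((X ^ N - 1) ^ j * H)).coeff j = (N : R) ^ j * r
      rw [hpsi]
      have : (X ^ j * (g ^ j * psi τ H)).coeff j = (g ^ j * psi τ H).coeff 0 := by
        have := coeff_X_pow_mul (g ^ j * psi τ H) j 0
        simpa using this
      rw [this, mul_coeff_zero, psi_coeff_zero, hH, coeff_zero_eq_eval_zero, eval_pow,
        ← coeff_zero_eq_eval_zero, hg0, mul_pow, ← pow_mul]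
      have h5 : τ ^ ((N - 1) * j) * τ ^ j = 1 := by
        rw [← pow_add]
        have : (N - 1) * j + j = N * j := by
          obtain ⟨n, rfl⟩ : ∃ n, N = n + 1 := ⟨N - 1, by omega⟩
          simp only [Nat.add_sub_cancel]
          ring
        rw [this, pow_mul, hτ, one_pow]
      calc (N : R) ^ j * τ ^ ((N - 1) * j) * (τ ^ j * r)
          = (N : R) ^ j * (τ ^ ((N - 1) * j) * τ ^ j) * r := by ring
        _ = (N : R) ^ j * r := by rw [h5, mul_one]
    exact AddSubgroup.card_le_of_le hle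
  have hmul := AddSubgroup.relIndex_mul_index hKK'
  have e1 : K.index = Nat.card (ℤ[X] ⧸ Jid τ j) := rfl
  have e2 : K'.index = Nat.card (ℤ[X] ⧸ Jid τ (j + 1)) := rfl
  rw [← e1, ← e2, ← hmul]
  calc Nat.card R * K.index ≤ (Nat.card S * N ^ (N * j)) * K.index :=
        Nat.mul_le_mul_right _ hcardR
    _ ≤ (K'.relIndex K * N ^ (N * j)) * K.index :=
        Nat.mul_le_mul_right _ (Nat.mul_le_mul_right _ hrel)
    _ = K'.relIndex K * K.index * N ^ (N * j) := by ring

/-- Lower bound for the number of residues. -/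
theorem card_lower [Finite R] (τ : R) (N : ℕ) (hN : 1 ≤ N) (hτ : τ ^ N = 1)
    (hsurj : ∀ r : R, ∃ p : ℤ[X], aeval τ p = r) (m : ℕ) :
    Nat.card R ^ m ≤ Nat.card (ℤ[X] ⧸ Jid τ m) * N ^ (N * (m * m)) := by
  induction m with
  | zero =>
    have := Jid_finite τ 0
    have h1 : 0 < Nat.card (ℤ[X] ⧸ Jid τ 0) := Nat.card_pos
    simp only [pow_zero, Nat.mul_zero, mul_one]
    exact h1
  | succ m ih =>
    have hs := card_step τ N hN hτ hsurj m
    calc Nat.card R ^ (m + 1) = Nat.card R ^ m * Nat.card R := pow_succ _ _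
      _ ≤ (Nat.card (ℤ[X] ⧸ Jid τ m) * N ^ (N * (m * m))) * Nat.card R :=
          Nat.mul_le_mul_right _ ih
      _ = (Nat.card R * Nat.card (ℤ[X] ⧸ Jid τ m)) * N ^ (N * (m * m)) := by ring
      _ ≤ (Nat.card (ℤ[X] ⧸ Jid τ (m + 1)) * N ^ (N * m)) * N ^ (N * (m * m)) :=
          Nat.mul_le_mul_right _ hs
      _ = Nat.card (ℤ[X] ⧸ Jid τ (m + 1)) * N ^ (N * m + N * (m * m)) := by
          rw [pow_add]; ring
      _ ≤ Nat.card (ℤ[X] ⧸ Jid τ (m + 1)) * N ^ (N * ((m + 1) * (m + 1))) := by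
          apply Nat.mul_le_mul_left
          apply Nat.pow_le_pow_right hN
          nlinarith

end Pool.Agent.Lib.MP_df6954_nt
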