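import Pool.Agent.Lib.MP_df6954_nt.Lattice

set_option autoImplicit false

open Polynomial

namespace Pool.Agent.Lib.MP_df6954_nt

lemma imgLT_le_range {A : Type*} [AddCommGroup A] (φ : ℤ[X] →+ A) (n : ℕ) :
    imgLT φ n ≤ φ.range := by
  rintro _ ⟨p, -, rfl⟩
  exact ⟨p, rfl⟩

lemma imgLT_mono {A : Type*} [AddCommGroup A] (φ : ℤ[X] →+ A) {m n : ℕ} (h : m ≤ n) :
    imgLT φ m ≤ imgLT φ n := by
  rintro _ ⟨p, hp, rfl⟩
  exact ⟨p, degreeLT_mono h hp, rfl⟩

/-- With a monic relation of degree at most `n`, the polynomials of degree `< n` span. -/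
lemma imgLT_eq_range {A : Type*} [AddCommGroup A] (φ : ℤ[X] →+ A) (F : ℤ[X]) (hF : F.Monic)
    (h0 : ∀ q, φ (F * q) = 0) {n : ℕ} (hn : F.natDegree ≤ n) :
    imgLT φ n = φ.range := by
  apply le_antisymm (imgLT_le_range φ n)
  rintro _ ⟨p, rfl⟩
  refine ⟨p %ₘ F, ?_, ?_⟩
  · change p %ₘ F ∈ degreeLT ℤ n
    rw [mem_degreeLT]
    have h1 := degree_modByMonic_lt p hF
    rw [degree_eq_natDegree hF.ne_zero] at h1
    exact lt_of_lt_of_le h1 (by exact_mod_cast hn)
  · conv_rhs => rw [← modByMonic_add_div p F]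
    rw [map_add, h0, add_zero]

/-- One more degree costs at most the leading coefficient. -/
lemma card_imgLT_succ_le {A : Type*} [AddCommGroup A] [Finite A] (φ : ℤ[X] →+ A) (F : ℤ[X])
    (hF : F ≠ 0) (h0 : ∀ q, φ (F * q) = 0) {n : ℕ} (hn : F.natDegree ≤ n) :
    Nat.card (imgLT φ (n + 1)) ≤ Nat.card (imgLT φ n) * F.leadingCoeff.natAbs := by
  set a := F.leadingCoeff with ha
  have hane : a ≠ 0 := leadingCoeff_ne_zero.mpr hF
  set low : ℤ[X] := F * X ^ (n - F.natDegree) - C a * X ^ n with hlow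
  have hlowdeg : low ∈ degreeLT ℤ n := by
    rw [mem_degreeLT, degree_lt_iff_coeff_zero]
    intro m hm
    rw [hlow, coeff_sub, coeff_C_mul_X_pow, coeff_mul_X_pow']
    split_ifs with h1 h2 h2
    · subst h2
      have : m - (m - F.natDegree) = F.natDegree := by omega
      rw [this, ha, coeff_natDegree]
      ring
    · have : F.natDegree < m - (n - F.natDegree) := by omega
      rw [coeff_eq_zero_of_natDegree_lt this]
      ring
    · omega
    · ring
  have hφa : φ (C a * X ^ n) = - φ low := by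
    rw [hlow, map_sub, h0]
    simp
  let g : imgLT φ n × Fin a.natAbs → A := fun x => (x.1 : A) + (x.2 : ℕ) • φ (X ^ n)
  have hcov : ((imgLT φ (n + 1) : AddSubgroup A) : Set A) ⊆ Set.range g := by
    rintro _ ⟨p, hp, rfl⟩
    have hp' : p.degree < (n + 1 : ℕ) := mem_degreeLT.mp hp
    set c := p.coeff n with hc
    have hmod : c = a * (c / a) + c % a := (Int.mul_ediv_add_emod c a).symm
    have hr0 : 0 ≤ c % a := Int.emod_nonneg _ hane
    have hr1 : c % a < a.natAbs := by
      have := Int.emod_lt_abs c hane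
      rwa [Int.abs_eq_natAbs] at this
    obtain ⟨r, hr⟩ := Int.eq_ofNat_of_zero_le hr0
    have hr2 : r < a.natAbs := by
      rw [hr] at hr1
      exact_mod_cast hr1
    set p' := p - C c * X ^ n with hp'def
    have hp'deg : p' ∈ degreeLT ℤ n := by
      rw [mem_degreeLT, degree_lt_iff_coeff_zero]
      intro m hm
      rw [hp'def, coeff_sub, coeff_C_mul_X_pow]
      split_ifs with h1
      · subst h1
        rw [hc]; ring
      · rw [coeff_eq_zero_of_degree_lt (lt_of_lt_of_le hp' (by
          have : n + 1 ≤ m := by omega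
          exact_mod_cast this))]
        ring
    refine ⟨⟨⟨φ (p' - C (c / a) * low), ?_⟩, ⟨r, hr2⟩⟩, ?_⟩
    · refine ⟨p' - C (c / a) * low, ?_, rfl⟩
      change _ ∈ degreeLT ℤ n
      apply Submodule.sub_mem _ hp'deg
      rw [← smul_eq_C_mul]
      exact Submodule.smul_mem _ _ hlowdeg
    · simp only [g]
      have h5 : p = p' + C (c / a) * (C a * X ^ n) + C (r : ℤ) * X ^ n := by
        rw [hp'def, ← hr]
        have : C c = C (c / a) * C a + C (c % a) := by
          rw [← C_mul, ← C_add]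
          congr 1
          rw [mul_comm (c / a) a]
          exact hmod
        rw [this]
        ring
      have h6 : ∀ (z : ℤ) (q : ℤ[X]), φ (C z * q) = z • φ q := by
        intro z q
        rw [← smul_eq_C_mul, map_zsmul]
      conv_rhs => rw [h5]
      rw [map_add, map_add, map_sub, h6, h6 (c / a) (C a * X ^ n), hφa, h6 (r : ℤ)]
      simp only [smul_neg, natCast_zsmul]
      abel
  have hfin : (Set.range g).Finite := Set.toFinite _
  calc Nat.card (imgLT φ (n + 1)) = Nat.card ((imgLT φ (n + 1) : AddSubgroup A) : Set A) := rfl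
    _ ≤ Nat.card (Set.range g) := Nat.card_mono hfin hcov
    _ ≤ Nat.card (imgLT φ n × Fin a.natAbs) := Finite.card_range_le g
    _ = Nat.card (imgLT φ n) * a.natAbs := by
        rw [Nat.card_prod, Nat.card_eq_fintype_card (α := Fin a.natAbs), Fintype.card_fin]

lemma card_imgLT_add_le {A : Type*} [AddCommGroup A] [Finite A] (φ : ℤ[X] →+ A) (F : ℤ[X])
    (hF : F ≠ 0) (h0 : ∀ q, φ (F * q) = 0) {n : ℕ} (hn : F.natDegree ≤ n) (k : ℕ) :
    Nat.card (imgLT φ (n + k)) ≤ Nat.card (imgLT φ n) * F.leadingCoeff.natAbs ^ k := by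
  induction k with
  | zero => simp
  | succ k ih =>
    rw [← add_assoc, pow_succ, ← mul_assoc]
    refine (card_imgLT_succ_le φ F hF h0 (hn.trans (Nat.le_add_right n k))).trans ?_
    exact Nat.mul_le_mul_right _ ih

end Pool.Agent.Lib.MP_df6954_nt
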