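import Pool.Agent.Lib.MP_df6954_nt.Lower

set_option autoImplicit false

open Polynomial

namespace Pool.Agent.Lib.MP_df6954_nt

noncomputable def aT : ℤ[X] := X ^ 2 - 1
noncomputable def bT : ℤ[X] := X * (X - 1)
noncomputable def cT : ℤ[X] := X * (X + 1)

/-- `(1 - w σ)^(-n)` -/
noncomputable def geo (w : ℤ[X]) (n : ℕ) : PowerSeries ℤ[X] :=
  PowerSeries.rescale w (PowerSeries.invOneSubPow ℤ[X] n).val

lemma geo_zero (w : ℤ[X]) : geo w 0 = 1 := by
  simp [geo, PowerSeries.invOneSubPow_zero]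

lemma geo_add (w : ℤ[X]) (a b : ℕ) : geo w (a + b) = geo w a * geo w b := by
  simp [geo, PowerSeries.invOneSubPow_add]

lemma geo_mul_one_sub (w : ℤ[X]) (n : ℕ) :
    geo w n * (1 - PowerSeries.C w * PowerSeries.X) ^ n = 1 := by
  have h1 : (PowerSeries.invOneSubPow ℤ[X] n).val * (1 - PowerSeries.X) ^ n = 1 := by
    rw [← PowerSeries.invOneSubPow_inv_eq_one_sub_pow]
    exact Units.val_inv _
  have h2 : PowerSeries.rescale w (1 - PowerSeries.X) = 1 - PowerSeries.C w * PowerSeries.X := by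
    rw [map_sub, map_one, PowerSeries.rescale_X]
  rw [geo, ← h2, ← map_pow, ← map_mul, h1, map_one]

/-- the series `u_β` -/
noncomputable def us (N : ℕ) (β : ℕ × ℕ × ℕ) : PowerSeries ℤ[X] :=
  geo aT (β.1 * N) * geo bT (β.2.1 * N) * geo cT (β.2.2 * N)

/-- the polynomial `e_β` -/
noncomputable def es (N : ℕ) (β : ℕ × ℕ × ℕ) : ℤ[X] :=
  X ^ (β.1 * N) * (X + 1) ^ (β.2.1 * N) * (X - 1) ^ (β.2.2 * N)

/-- auxiliary two-variable polynomial -/
noncomputable def EE (N κ : ℕ) (β : ℕ × ℕ × ℕ) : ℤ[X][X] :=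
  (C X ^ (β.1 * N) * (C X - X) ^ ((κ - β.1) * N)) *
  (C (X + 1) ^ (β.2.1 * N) * (C (X + 1) - X) ^ ((κ - β.2.1) * N)) *
  (C (X - 1) ^ (β.2.2 * N) * (C (X - 1) - X) ^ ((κ - β.2.2) * N))

/-- substitution `S ↦ w σ` -/
noncomputable def thetaHom : ℤ[X][X] →+* PowerSeries ℤ[X] :=
  (PowerSeries.rescale (X * (X ^ 2 - 1) : ℤ[X])).comp Polynomial.coeToPowerSeries.ringHom

lemma thetaHom_C (p : ℤ[X]) : thetaHom (C p) = PowerSeries.C p := by
  simp only [thetaHom, RingHom.comp_apply, Polynomial.coeToPowerSeries.ringHom_apply,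
    Polynomial.coe_C]
  ext n : 1
  rw [PowerSeries.coeff_rescale, PowerSeries.coeff_C]
  split_ifs with h
  · rw [h, pow_zero, one_mul]
  · rw [mul_zero]

lemma thetaHom_block (v : ℤ[X]) (a b : ℕ) : thetaHom (C v ^ a * (C v - X) ^ b) =
    PowerSeries.C v ^ a * (PowerSeries.C v - thetaHom X) ^ b := by
  rw [map_mul, map_pow, map_pow, map_sub, thetaHom_C]

lemma thetaHom_X : thetaHom X = PowerSeries.C (X * (X ^ 2 - 1) : ℤ[X]) * PowerSeries.X := by
  simp only [thetaHom, RingHom.comp_apply, Polynomial.coeToPowerSeries.ringHom_apply,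
    Polynomial.coe_X, PowerSeries.rescale_X]

lemma geo_pow_aux (w v : ℤ[X]) (N κ i : ℕ) (hi : i ≤ κ) (W : PowerSeries ℤ[X])
    (hW : W = PowerSeries.C (v * w) * PowerSeries.X) :
    PowerSeries.C v ^ (i * N) * (PowerSeries.C v - W) ^ ((κ - i) * N) =
      (PowerSeries.C v ^ (κ * N) * (1 - PowerSeries.C w * PowerSeries.X) ^ (κ * N)) *
        geo w (i * N) := by
  have h1 : PowerSeries.C v - W = PowerSeries.C v * (1 - PowerSeries.C w * PowerSeries.X) := by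
    rw [hW, map_mul]; ring
  have h2 : κ * N = i * N + (κ - i) * N := by
    rw [← Nat.add_mul, Nat.add_sub_cancel' hi]
  have h3 := geo_mul_one_sub w (i * N)
  rw [h1, mul_pow, h2, pow_add, pow_add]
  calc PowerSeries.C v ^ (i * N) * (PowerSeries.C v ^ ((κ - i) * N) *
        (1 - PowerSeries.C w * PowerSeries.X) ^ ((κ - i) * N))
      = PowerSeries.C v ^ (i * N) * (PowerSeries.C v ^ ((κ - i) * N) *
        (1 - PowerSeries.C w * PowerSeries.X) ^ ((κ - i) * N)) *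
        (geo w (i * N) * (1 - PowerSeries.C w * PowerSeries.X) ^ (i * N)) := by
          rw [h3, mul_one]
    _ = _ := by ring

lemma thetaHom_EE (N κ : ℕ) (β : ℕ × ℕ × ℕ) (h1 : β.1 ≤ κ) (h2 : β.2.1 ≤ κ) (h3 : β.2.2 ≤ κ) :
    thetaHom (EE N κ β) =
      ((PowerSeries.C X ^ (κ * N) * (1 - PowerSeries.C aT * PowerSeries.X) ^ (κ * N)) *
       (PowerSeries.C (X + 1) ^ (κ * N) * (1 - PowerSeries.C bT * PowerSeries.X) ^ (κ * N)) *
       (PowerSeries.C (X - 1) ^ (κ * N) * (1 - PowerSeries.C cT * PowerSeries.X) ^ (κ * N))) *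
      us N β := by
  have e1 := geo_pow_aux aT X N κ β.1 h1 (thetaHom X) (by rw [thetaHom_X]; rfl)
  have e2 := geo_pow_aux bT (X + 1) N κ β.2.1 h2 (thetaHom X) (by
    rw [thetaHom_X]
    congr 2
    rw [bT]; ring)
  have e3 := geo_pow_aux cT (X - 1) N κ β.2.2 h3 (thetaHom X) (by
    rw [thetaHom_X]
    congr 2
    rw [cT]; ring)
  rw [EE, map_mul, map_mul, thetaHom_block, thetaHom_block, thetaHom_block, e1, e2, e3, us]
  ring

variable {R : Type*} [CommRing R]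

/-- specialisation at `τ` -/
noncomputable def chiHom (τ : R) : ℤ[X][X] →+* R[X] := eval₂RingHom (psi τ) X

lemma chiHom_C (τ : R) (p : ℤ[X]) : chiHom τ (C p) = psi τ p := by simp [chiHom]
lemma chiHom_X (τ : R) : chiHom τ X = X := by simp [chiHom]

lemma chiHom_block (τ : R) (v : ℤ[X]) (a b : ℕ) : chiHom τ (C v ^ a * (C v - X) ^ b) =
    psi τ v ^ a * (psi τ v - X) ^ b := by
  rw [map_mul, map_pow, map_pow, map_sub, chiHom_C, chiHom_X]

lemma chiHom_EE (τ : R) (N κ : ℕ) (β : ℕ × ℕ × ℕ) (h1 : τ ^ N = 1) (h2 : (τ + 1) ^ N = 1)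
    (h3 : (τ - 1) ^ N = 1) : chiHom τ (EE N κ β) = psi τ (es N β) := by
  have k1 : psi τ X - X = C τ := by rw [psi_X]; ring
  have k2 : psi τ (X + 1) - X = C (τ + 1) := by rw [map_add, psi_X, map_one, C_add, C_1]; ring
  have k3 : psi τ (X - 1) - X = C (τ - 1) := by rw [map_sub, psi_X, map_one, C_sub, C_1]; ring
  have l1 : ∀ (σ : R) (n : ℕ), σ ^ N = 1 → (C σ : R[X]) ^ (n * N) = 1 := by
    intro σ n h
    rw [mul_comm, pow_mul, ← C_pow, h, C_1, one_pow]
  rw [EE, map_mul, map_mul, chiHom_block, chiHom_block, chiHom_block, k1, k2, k3,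
    l1 _ _ h1, l1 _ _ h2, l1 _ _ h3, es, map_mul, map_mul, map_pow, map_pow, map_pow,
    mul_one, mul_one, mul_one]

/-- The (global) Stepanov vanishing property. -/
theorem stepanov {ι : Type*} (s : Finset ι) (P : ι → ℤ[X]) (γ : ι → ℕ × ℕ × ℕ) (κ N m : ℕ)
    (hγ : ∀ i ∈ s, (γ i).1 ≤ κ ∧ (γ i).2.1 ≤ κ ∧ (γ i).2.2 ≤ κ)
    (hcoef : ∀ k < m, PowerSeries.coeff k (∑ i ∈ s, PowerSeries.C (P i) * us N (γ i)) = 0)
    (τ : R) (h1 : τ ^ N = 1) (h2 : (τ + 1) ^ N = 1) (h3 : (τ - 1) ^ N = 1) :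
    ∑ i ∈ s, P i * es N (γ i) ∈ Jid τ m := by
  set E : ℤ[X][X] := ∑ i ∈ s, C (P i) * EE N κ (γ i) with hE
  have hw : (X * (X ^ 2 - 1) : ℤ[X]) ≠ 0 := by
    apply mul_ne_zero X_ne_zero
    have := X_pow_sub_C_ne_zero (R := ℤ) (n := 2) (by norm_num) 1
    simpa using this
  have htheta : thetaHom E =
      ((PowerSeries.C X ^ (κ * N) * (1 - PowerSeries.C aT * PowerSeries.X) ^ (κ * N)) *
       (PowerSeries.C (X + 1) ^ (κ * N) * (1 - PowerSeries.C bT * PowerSeries.X) ^ (κ * N)) *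
       (PowerSeries.C (X - 1) ^ (κ * N) * (1 - PowerSeries.C cT * PowerSeries.X) ^ (κ * N))) *
      ∑ i ∈ s, PowerSeries.C (P i) * us N (γ i) := by
    rw [hE, map_sum, Finset.mul_sum]
    apply Finset.sum_congr rfl
    intro i hi
    obtain ⟨g1, g2, g3⟩ := hγ i hi
    rw [map_mul, thetaHom_C, thetaHom_EE N κ (γ i) g1 g2 g3]
    ring
  have hdiv : PowerSeries.X ^ m ∣ thetaHom E := by
    rw [htheta]
    apply Dvd.dvd.mul_left
    rw [PowerSeries.X_pow_dvd_iff]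
    exact hcoef
  have hEdiv : X ^ m ∣ E := by
    rw [X_pow_dvd_iff]
    intro k hk
    rw [PowerSeries.X_pow_dvd_iff] at hdiv
    have h4 := hdiv k hk
    have h5 : PowerSeries.coeff k (thetaHom E) = (X * (X ^ 2 - 1) : ℤ[X]) ^ k * E.coeff k := by
      simp only [thetaHom, RingHom.comp_apply, Polynomial.coeToPowerSeries.ringHom_apply,
        PowerSeries.coeff_rescale, Polynomial.coeff_coe]
    rw [h5] at h4
    exact (mul_eq_zero.mp h4).resolve_left (pow_ne_zero _ hw)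
  rw [mem_Jid]
  have h6 : chiHom τ E = psi τ (∑ i ∈ s, P i * es N (γ i)) := by
    rw [hE, map_sum, map_sum]
    apply Finset.sum_congr rfl
    intro i _
    rw [map_mul, map_mul, chiHom_C, chiHom_EE τ N κ (γ i) h1 h2 h3]
  rw [← h6]
  have h7 := map_dvd (chiHom τ) hEdiv
  rwa [map_pow, chiHom_X] at h7

end Pool.Agent.Lib.MP_df6954_nt
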