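import Pool.Agent.Lib.MP_df6954_nt.Stepanov

set_option autoImplicit false

open Polynomial Filter Topology

namespace Pool.Agent.Lib.MP_df6954_nt

/-- scaled coefficientwise convergence -/
def Lim (F : ℕ → PowerSeries ℝ) (L : PowerSeries ℝ) : Prop :=
  ∀ k, Tendsto (fun N : ℕ => PowerSeries.coeff k (F N) / (N : ℝ) ^ k) atTop
    (𝓝 (PowerSeries.coeff k L))

lemma Lim.mul {F G : ℕ → PowerSeries ℝ} {L M : PowerSeries ℝ} (hF : Lim F L) (hG : Lim G M) :
    Lim (fun N => F N * G N) (L * M) := by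
  intro k
  have h1 : (fun N : ℕ => PowerSeries.coeff k (F N * G N) / (N : ℝ) ^ k) =
      fun N : ℕ => ∑ p ∈ Finset.HasAntidiagonal.antidiagonal k,
        (PowerSeries.coeff p.1 (F N) / (N : ℝ) ^ p.1) *
          (PowerSeries.coeff p.2 (G N) / (N : ℝ) ^ p.2) := by
    ext N
    rw [PowerSeries.coeff_mul, Finset.sum_div]
    apply Finset.sum_congr rfl
    intro p hp
    rw [Finset.HasAntidiagonal.mem_antidiagonal] at hp
    rw [div_mul_div_comm, ← pow_add, hp]
  rw [h1, PowerSeries.coeff_mul]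
  apply tendsto_finsetSum
  intro p _
  exact (hF p.1).mul (hG p.2)

lemma factorial_mul_coeff_inv (n k : ℕ) :
    (k.factorial : ℝ) * PowerSeries.coeff k (PowerSeries.invOneSubPow ℝ n).val =
      ∏ r ∈ Finset.range k, ((n : ℝ) + r) := by
  rcases n with _ | n
  · rw [PowerSeries.invOneSubPow_zero]
    rcases k with _ | k
    · simp
    · rw [Finset.prod_range_succ']
      simp [PowerSeries.coeff_one]
  · rw [PowerSeries.invOneSubPow_val_succ_eq_mk_add_choose, PowerSeries.coeff_mk]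
    have h1 := Nat.ascFactorial_eq_factorial_mul_choose n k
    have h2 := Nat.ascFactorial_eq_prod_range (n + 1) k
    rw [h2] at h1
    have h3 : (n + k).choose n = (n + k).choose k := by
      rw [Nat.choose_symm_add]
    rw [h3]
    have h4 : ((∏ i ∈ Finset.range k, (n + 1 + i) : ℕ) : ℝ) = ((k.factorial * (n + k).choose k : ℕ) : ℝ) := by
      rw [h1]
    push_cast at h4 ⊢
    rw [← h4]

lemma lim_inv (w : ℝ) (i : ℕ) :
    Lim (fun N => PowerSeries.rescale w (PowerSeries.invOneSubPow ℝ (i * N)).val)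
      (PowerSeries.rescale ((i : ℝ) * w) (PowerSeries.exp ℝ)) := by
  intro k
  have hk : (k.factorial : ℝ) ≠ 0 := by exact_mod_cast k.factorial_ne_zero
  have h1 : ∀ N : ℕ, PowerSeries.coeff k (PowerSeries.rescale w (PowerSeries.invOneSubPow ℝ (i * N)).val)
      / (N : ℝ) ^ k = w ^ k / k.factorial * ∏ r ∈ Finset.range k, (((i : ℝ) * N + r) / N) := by
    intro N
    have h2 := factorial_mul_coeff_inv (i * N) k
    rw [PowerSeries.coeff_rescale, Finset.prod_div_distrib, Finset.prod_const, Finset.card_range]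
    push_cast at h2
    rw [← h2]
    field_simp
  simp_rw [h1]
  rw [PowerSeries.coeff_rescale, PowerSeries.coeff_exp]
  have h3 : ((i : ℝ) * w) ^ k * (algebraMap ℚ ℝ) (1 / (k.factorial : ℚ)) =
      w ^ k / k.factorial * ∏ _r ∈ Finset.range k, (i : ℝ) := by
    rw [Finset.prod_const, Finset.card_range, mul_pow]
    simp
    field_simp
  rw [h3]
  apply Tendsto.const_mul
  apply tendsto_finsetProd
  intro r _
  have h4 : Tendsto (fun N : ℕ => (i : ℝ) + (r : ℝ) / N) atTop (𝓝 ((i : ℝ) + 0)) :=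
    tendsto_const_nhds.add (tendsto_const_div_atTop_nhds_zero_nat (r : ℝ))
  rw [add_zero] at h4
  refine h4.congr' ?_
  filter_upwards [eventually_gt_atTop 0] with N hN
  have : (N : ℝ) ≠ 0 := by positivity
  field_simp

/-- evaluation at an integer, with real values -/
noncomputable def evR (t : ℤ) : ℤ[X] →+* ℝ := (Int.castRingHom ℝ).comp (evalRingHom t)

lemma map_geo (t : ℤ) (w : ℤ[X]) (n : ℕ) :
    (geo w n).map (evR t) = PowerSeries.rescale (evR t w) (PowerSeries.invOneSubPow ℝ n).val := by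
  rw [geo, ← PowerSeries.rescale_map]
  congr 1
  rcases n with _ | n
  · simp [PowerSeries.invOneSubPow_zero]
  · ext k
    rw [PowerSeries.coeff_map, PowerSeries.invOneSubPow_val_succ_eq_mk_add_choose,
      PowerSeries.invOneSubPow_val_succ_eq_mk_add_choose, PowerSeries.coeff_mk,
      PowerSeries.coeff_mk, map_natCast]

/-- the nodes -/
noncomputable def yy (t : ℤ) (β : ℕ × ℕ × ℕ) : ℝ :=
  (β.1 : ℝ) * evR t aT + (β.2.1 : ℝ) * evR t bT + (β.2.2 : ℝ) * evR t cT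

lemma lim_us (t : ℤ) (β : ℕ × ℕ × ℕ) :
    Lim (fun N => (us N β).map (evR t)) (PowerSeries.rescale (yy t β) (PowerSeries.exp ℝ)) := by
  have h1 : (fun N => (us N β).map (evR t)) = fun N =>
      PowerSeries.rescale (evR t aT) (PowerSeries.invOneSubPow ℝ (β.1 * N)).val *
      PowerSeries.rescale (evR t bT) (PowerSeries.invOneSubPow ℝ (β.2.1 * N)).val *
      PowerSeries.rescale (evR t cT) (PowerSeries.invOneSubPow ℝ (β.2.2 * N)).val := by
    ext N : 1
    rw [us, map_mul, map_mul, map_geo, map_geo, map_geo]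
  rw [h1, yy, ← PowerSeries.exp_mul_exp_eq_exp_add, ← PowerSeries.exp_mul_exp_eq_exp_add]
  exact ((lim_inv _ _).mul (lim_inv _ _)).mul (lim_inv _ _)

lemma yy_injOn (κ : ℕ) (hκ : 1 ≤ κ) (β β' : ℕ × ℕ × ℕ)
    (h1 : β.1 < κ ∧ β.2.1 < κ ∧ β.2.2 < κ) (h2 : β'.1 < κ ∧ β'.2.1 < κ ∧ β'.2.2 < κ)
    (h : yy (2 * κ : ℕ) β = yy (2 * κ : ℕ) β') : β = β' := by
  obtain ⟨i, j, l⟩ := β
  obtain ⟨i', j', l'⟩ := β'
  simp only at h1 h2
  obtain ⟨hi, hj, hl⟩ := h1
  obtain ⟨hi', hj', hl'⟩ := h2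
  have e : ∀ i j l : ℕ, yy (2 * κ : ℕ) (i, j, l) =
      (((i + j + l : ℤ) * (2 * κ) ^ 2 + ((l : ℤ) - j) * (2 * κ) - i : ℤ) : ℝ) := by
    intro i j l
    simp only [yy, evR, aT, bT, cT, RingHom.comp_apply, coe_evalRingHom]
    simp
    ring
  rw [e, e] at h
  have h' : (i + j + l : ℤ) * (2 * κ) ^ 2 + ((l : ℤ) - j) * (2 * κ) - i =
    (i' + j' + l' : ℤ) * (2 * κ) ^ 2 + ((l' : ℤ) - j') * (2 * κ) - i' := by exact_mod_cast h
  zify at hi hj hl hi' hj' hl' hκ
  set K : ℤ := (κ : ℤ) with hK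
  -- compare the sums
  have hs : (i + j + l : ℤ) = i' + j' + l' := by
    by_contra hne
    rcases lt_or_gt_of_ne hne with hlt | hgt
    · have : (i' + j' + l' : ℤ) - (i + j + l) ≥ 1 := by omega
      nlinarith [mul_nonneg (by omega : (0 : ℤ) ≤ (i' + j' + l' : ℤ) - (i + j + l) - 1) (by positivity : (0 : ℤ) ≤ (2 * K) ^ 2)]
    · have : (i + j + l : ℤ) - (i' + j' + l') ≥ 1 := by omega
      nlinarith [mul_nonneg (by omega : (0 : ℤ) ≤ (i + j + l : ℤ) - (i' + j' + l') - 1) (by positivity : (0 : ℤ) ≤ (2 * K) ^ 2)]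
  rw [hs] at h'
  have hd : (l : ℤ) - j = l' - j' := by
    by_contra hne
    rcases lt_or_gt_of_ne hne with hlt | hgt
    · have : ((l' : ℤ) - j') - (l - j) ≥ 1 := by omega
      nlinarith [mul_nonneg (by omega : (0 : ℤ) ≤ ((l' : ℤ) - j') - (l - j) - 1) (by positivity : (0 : ℤ) ≤ 2 * K)]
    · have : ((l : ℤ) - j) - (l' - j') ≥ 1 := by omega
      nlinarith [mul_nonneg (by omega : (0 : ℤ) ≤ ((l : ℤ) - j) - (l' - j') - 1) (by positivity : (0 : ℤ) ≤ 2 * K)]
  rw [hd] at h'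
  have h3 : (i : ℤ) = i' := by linarith
  have h4 : (j : ℤ) = j' := by omega
  have h5 : (l : ℤ) = l' := by omega
  norm_cast at h3 h4 h5
  rw [h3, h4, h5]

/-- enumeration of the exponents -/
noncomputable def eqv (κ : ℕ) : Fin (κ ^ 3) ≃ Fin κ × Fin κ × Fin κ :=
  (Fintype.equivFinOfCardEq (by simp [Fintype.card_prod]; ring)).symm

noncomputable def al (κ : ℕ) (r : Fin (κ ^ 3)) : ℕ × ℕ × ℕ :=
  ((eqv κ r).1, (eqv κ r).2.1, (eqv κ r).2.2)

lemma al_lt (κ : ℕ) (r : Fin (κ ^ 3)) :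
    (al κ r).1 < κ ∧ (al κ r).2.1 < κ ∧ (al κ r).2.2 < κ :=
  ⟨(eqv κ r).1.2, (eqv κ r).2.1.2, (eqv κ r).2.2.2⟩

lemma al_injective (κ : ℕ) : Function.Injective (al κ) := by
  intro r r' h
  apply (eqv κ).injective
  simp only [al, Prod.mk.injEq] at h
  obtain ⟨h1, h2, h3⟩ := h
  ext
  · exact h1
  · exact h2
  · exact h3

lemma exists_al (κ : ℕ) (β : ℕ × ℕ × ℕ) (h : β.1 < κ ∧ β.2.1 < κ ∧ β.2.2 < κ) :
    ∃ r, al κ r = β := by
  refine ⟨(eqv κ).symm (⟨β.1, h.1⟩, ⟨β.2.1, h.2.1⟩, ⟨β.2.2, h.2.2⟩), ?_⟩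
  simp [al]

/-- the Wronskian-type matrix -/
noncomputable def MM (N κ : ℕ) : Matrix (Fin (κ ^ 3)) (Fin (κ ^ 3)) ℤ[X] :=
  Matrix.of fun k r => PowerSeries.coeff (k : ℕ) (us N (al κ r))

theorem det_MM_ne_zero (κ : ℕ) (hκ : 1 ≤ κ) : ∀ᶠ N in atTop, (MM N κ).det ≠ 0 := by
  set t : ℤ := ((2 * κ : ℕ) : ℤ) with ht
  let y : Fin (κ ^ 3) → ℝ := fun r => yy t (al κ r)
  have hy : Function.Injective y := by
    intro r r' h
    apply al_injective κ
    exact yy_injOn κ hκ _ _ (al_lt κ r) (al_lt κ r') h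
  let L : Matrix (Fin (κ ^ 3)) (Fin (κ ^ 3)) ℝ :=
    Matrix.of fun k r => ((k : ℕ).factorial : ℝ)⁻¹ * (Matrix.vandermonde y).transpose k r
  have hL : L.det ≠ 0 := by
    have : L.det = (∏ k : Fin (κ ^ 3), ((k : ℕ).factorial : ℝ)⁻¹) * (Matrix.vandermonde y).transpose.det :=
      Matrix.det_mul_column _ _
    rw [this, Matrix.det_transpose]
    apply mul_ne_zero
    · rw [Finset.prod_ne_zero_iff]
      intro k _
      exact inv_ne_zero (by exact_mod_cast (k : ℕ).factorial_ne_zero)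
    · exact Matrix.det_vandermonde_ne_zero_iff.mpr hy
  let B : ℕ → Matrix (Fin (κ ^ 3)) (Fin (κ ^ 3)) ℝ := fun N =>
    Matrix.of fun k r => (((N : ℝ) ^ (k : ℕ))⁻¹) * ((evR t).mapMatrix (MM N κ)) k r
  have hB : Tendsto B atTop (𝓝 L) := by
    refine tendsto_pi_nhds.2 fun k => ?_
    refine tendsto_pi_nhds.2 fun r => ?_
    have h1 := lim_us t (al κ r) (k : ℕ)
    have h2 : L k r = PowerSeries.coeff (k : ℕ) (PowerSeries.rescale (yy t (al κ r)) (PowerSeries.exp ℝ)) := by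
      simp only [L, Matrix.of_apply, Matrix.transpose_apply, Matrix.vandermonde_apply]
      rw [PowerSeries.coeff_rescale, PowerSeries.coeff_exp]
      simp [y, mul_comm]
    rw [h2]
    refine h1.congr ?_
    intro N
    simp only [B, Matrix.of_apply, RingHom.mapMatrix_apply, Matrix.map_apply, MM]
    rw [PowerSeries.coeff_map, div_eq_inv_mul]
  have hdet : Tendsto (fun N => (B N).det) atTop (𝓝 L.det) :=
    ((continuous_id.matrix_det).tendsto L).comp hB
  have hev := hdet.eventually_ne hL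
  filter_upwards [hev] with N hN h0
  apply hN
  have : (B N).det = (∏ k : Fin (κ ^ 3), ((N : ℝ) ^ (k : ℕ))⁻¹) * ((evR t).mapMatrix (MM N κ)).det :=
    Matrix.det_mul_column _ _
  rw [this, ← RingHom.map_det, h0, map_zero, mul_zero]

end Pool.Agent.Lib.MP_df6954_nt
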